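import Pool.Agent.H607.Sp.Weights
import Pool.Graph.R_seed8.TH842.A3.Uni
import Mathlib

/-!
# Lower bounds for the number of `k < d` with `b ^ k x` far from the integers
-/

set_option autoImplicit false

namespace Pool.Agent.H607.Sp

open Finset Filter Topology MeasureTheory ProbabilityTheory

lemma next_far {b : ℕ} (hb : 2 ≤ b) {x : ℝ} (hirr : Irrational x) (k : ℕ) :
    ∃ j : ℕ, Far b x (k + j) ∧ (b : ℝ) ^ j * |(b : ℝ) ^ k * x - round ((b : ℝ) ^ k * x)| ≤ 1 / 2 := by
  have hb1 : (1 : ℝ) < b := by exact_mod_cast (by omega : 1 < b)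
  have hb2 : (2 : ℝ) ≤ b := by exact_mod_cast hb
  have hb0 : (0 : ℝ) < b := by linarith
  set z₀ := round ((b : ℝ) ^ k * x) with hz₀
  set δ := |(b : ℝ) ^ k * x - z₀| with hδ
  have hδ2 : δ ≤ 1 / 2 := abs_sub_round _
  have hδ0 : 0 < δ := by
    apply abs_pos.2
    intro h
    have h1 : Irrational ((b : ℝ) ^ k * x) := by
      have := hirr.natCast_mul (m := b ^ k) (by positivity)
      push_cast at this
      exact this
    apply h1
    exact ⟨z₀, by push_cast; linarith⟩
  have hex : ∃ j : ℕ, 1 / (2 * (b : ℝ)) ≤ (b : ℝ) ^ j * δ :=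
    ((tendsto_pow_atTop_atTop_of_one_lt hb1).atTop_mul_const hδ0 |>.eventually_ge_atTop _).exists
  classical
  set j := Nat.find hex with hj
  have h1 : 1 / (2 * (b : ℝ)) ≤ (b : ℝ) ^ j * δ := Nat.find_spec hex
  have h2 : (b : ℝ) ^ j * δ ≤ 1 / 2 := by
    rcases Nat.eq_zero_or_pos j with h0 | h0
    · rw [h0, pow_zero, one_mul]
      exact hδ2
    · have h3 := Nat.find_min hex (m := j - 1) (by omega)
      push Not at h3
      have h4 : (b : ℝ) ^ j = (b : ℝ) ^ (j - 1) * b := by
        rw [← pow_succ]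
        congr 1
        omega
      rw [h4]
      calc (b : ℝ) ^ (j - 1) * b * δ = b * ((b : ℝ) ^ (j - 1) * δ) := by ring
        _ ≤ b * (1 / (2 * b)) := by
            apply mul_le_mul_of_nonneg_left h3.le hb0.le
        _ = 1 / 2 := by field_simp
  refine ⟨j, fun z => ?_, h2⟩
  have h3 : |(b : ℝ) ^ (k + j) * x - (((b : ℤ) ^ j * z₀ : ℤ) : ℝ)| = (b : ℝ) ^ j * δ := by
    have : (b : ℝ) ^ (k + j) * x - (((b : ℤ) ^ j * z₀ : ℤ) : ℝ) = (b : ℝ) ^ j * ((b : ℝ) ^ k * x - z₀) := by
      push_cast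
      rw [pow_add]
      ring
    rw [this, abs_mul, abs_of_pos (by positivity)]
  by_cases hz : z = (b : ℤ) ^ j * z₀
  · rw [hz, h3]
    exact h1
  · have h4 : (1 : ℝ) ≤ |(((b : ℤ) ^ j * z₀ : ℤ) : ℝ) - z| := by
      have h5 : 1 ≤ |(b : ℤ) ^ j * z₀ - z| := Int.one_le_abs (sub_ne_zero.2 (Ne.symm hz))
      exact_mod_cast h5
    have h5 := abs_sub_le ((((b : ℤ) ^ j * z₀ : ℤ) : ℝ)) ((b : ℝ) ^ (k + j) * x) z
    rw [abs_sub_comm _ ((b : ℝ) ^ (k + j) * x), h3] at h5
    have h6 : 1 / (2 * (b : ℝ)) ≤ 1 / 2 := by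
      apply one_div_le_one_div_of_le (by norm_num)
      linarith
    linarith

lemma gg_geo {b : ℕ} {x : ℝ} (B : ℕ) (hB : 2 ≤ B)
    (h : ∀ k, 1 ≤ k → ∃ k', k ≤ k' ∧ k' < B * k ∧ Far b x k') :
    ∃ c : ℝ, 0 < c ∧ ∀ᶠ d : ℕ in atTop,
      c * (Real.log d) ^ 1 / (Real.log (Real.log d)) ^ 0 ≤ GG b x d := by
  classical
  have h1 : ∀ i, i ≤ GG b x (B ^ i) := by
    intro i
    induction i with
    | zero => exact Nat.zero_le _
    | succ i ih =>
      obtain ⟨k', hk1, hk2, hk3⟩ := h (B ^ i) (Nat.one_le_pow _ _ (by omega))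
      unfold GG at ih ⊢
      have h2 : insert k' ((range (B ^ i)).filter (Far b x)) ⊆ (range (B ^ (i + 1))).filter (Far b x) := by
        intro a ha
        rw [mem_insert, mem_filter, mem_range] at ha
        rw [mem_filter, mem_range, pow_succ]
        have h3 : 0 < B ^ i := by positivity
        rcases ha with rfl | ha
        · exact ⟨by rw [mul_comm]; exact hk2, hk3⟩
        · exact ⟨by nlinarith, ha.2⟩
      have h3 := card_le_card h2
      rw [card_insert_of_notMem (by
        rw [mem_filter, mem_range]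
        intro h4
        omega)] at h3
      omega
  have hBR : (1 : ℝ) < B := by exact_mod_cast (by omega : 1 < B)
  have hlB : 0 < Real.log B := Real.log_pos hBR
  refine ⟨1 / (2 * Real.log B), by positivity, ?_⟩
  filter_upwards [tend_log.eventually_ge_atTop (2 * Real.log B), eventually_ge_atTop 1] with d hd hd1
  rw [pow_one, pow_zero, div_one]
  have h2 : Nat.log B d ≤ GG b x d :=
    (h1 _).trans (GG_mono b x (Nat.pow_log_le_self B (by omega)))
  have h3 : d < B ^ (Nat.log B d + 1) := Nat.lt_pow_succ_log_self (by omega) d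
  have hd0 : (0 : ℝ) < d := by exact_mod_cast hd1
  have h4 : Real.log d ≤ (Nat.log B d + 1) * Real.log B := by
    have h5 : (d : ℝ) ≤ (B : ℝ) ^ (Nat.log B d + 1) := by exact_mod_cast h3.le
    have h6 := Real.log_le_log hd0 h5
    rw [Real.log_pow] at h6
    push_cast at h6
    exact h6
  have h5 : (Nat.log B d : ℝ) ≤ GG b x d := by exact_mod_cast h2
  rw [one_div, inv_mul_eq_div, div_le_iff₀ (by positivity)]
  nlinarith

/-- numbers which are not Liouville numbers, and their integer multiples -/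
theorem gg_liou {b : ℕ} (hb : 2 ≤ b) {x : ℝ} (hirr : Irrational x) (hL : ¬ Liouville x) {h : ℤ}
    (hh : h ≠ 0) : ∃ c : ℝ, 0 < c ∧ ∀ᶠ d : ℕ in atTop,
      c * (Real.log d) ^ 1 / (Real.log (Real.log d)) ^ 0 ≤ GG b (h * x) d := by
  have hb1 : (1 : ℝ) < b := by exact_mod_cast (by omega : 1 < b)
  have hb0 : (0 : ℝ) < b := by linarith
  unfold Liouville at hL
  push Not at hL
  obtain ⟨n, hn⟩ := hL
  obtain ⟨e, he⟩ := ((tendsto_pow_atTop_atTop_of_one_lt hb1).eventually_ge_atTop (|(h : ℝ)|)).exists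
  have hh1 : (1 : ℝ) ≤ |(h : ℝ)| := by
    have := Int.one_le_abs hh
    exact_mod_cast this
  -- the distances
  have hdist : ∀ k, 1 ≤ k → ∀ z : ℤ, 1 ≤ (b : ℝ) ^ (n * (k + e)) * |(b : ℝ) ^ k * (h * x) - z| := by
    intro k hk z
    set H : ℤ := |h| * (b : ℤ) ^ k with hH
    have hH1 : 1 < H := by
      have h1 : (2 : ℤ) ≤ (b : ℤ) ^ k := by
        calc (2 : ℤ) ≤ b := by exact_mod_cast hb
          _ ≤ (b : ℤ) ^ k := le_self_pow₀ (by exact_mod_cast (by omega : 1 ≤ b)) (by omega)
      have h2 := Int.one_le_abs hh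
      nlinarith
    have hHR : (1 : ℝ) < H := by exact_mod_cast hH1
    have hHR' : (H : ℝ) = |(h : ℝ)| * (b : ℝ) ^ k := by
      rw [hH]
      push_cast
      ring
    have hHle : (H : ℝ) ≤ (b : ℝ) ^ (k + e) := by
      rw [hHR', pow_add, mul_comm]
      gcongr
    -- the sign
    have h3 : ∀ a : ℤ, 1 ≤ (H : ℝ) ^ n * |(H : ℝ) * x - a| := by
      intro a
      have h4 := hn a H hH1 (by
        intro h5
        apply hirr
        exact ⟨(a : ℚ) / H, by push_cast; exact h5.symm⟩)
      rw [div_le_iff₀ (by positivity)] at h4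
      have h5 : |(H : ℝ) * x - a| = H * |x - a / H| := by
        rw [← abs_of_pos (by linarith : (0 : ℝ) < H), ← abs_mul, abs_of_pos (by linarith : (0 : ℝ) < H)]
        congr 1
        field_simp
      rw [h5]
      have h6 : 0 ≤ |x - a / H| * (H : ℝ) ^ n := by positivity
      nlinarith
    have h4 : ∃ a : ℤ, |(b : ℝ) ^ k * (h * x) - z| = |(H : ℝ) * x - a| := by
      rcases le_or_gt 0 h with hp | hp
      · refine ⟨z, ?_⟩
        congr 1
        rw [hHR', abs_of_nonneg (by exact_mod_cast hp)]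
        ring
      · refine ⟨-z, ?_⟩
        rw [← abs_neg]
        congr 1
        rw [hHR', abs_of_neg (by exact_mod_cast hp)]
        push_cast
        ring
    obtain ⟨a, ha⟩ := h4
    rw [ha]
    refine (h3 a).trans ?_
    apply mul_le_mul_of_nonneg_right _ (abs_nonneg _)
    calc (H : ℝ) ^ n ≤ ((b : ℝ) ^ (k + e)) ^ n := by gcongr
      _ = (b : ℝ) ^ (n * (k + e)) := by rw [← pow_mul, mul_comm]
  have hirr' : Irrational (h * x) := hirr.intCast_mul hh
  refine gg_geo (n * (e + 1) + 2) (by omega) ?_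
  intro k hk
  obtain ⟨j, hj1, hj2⟩ := next_far hb hirr' k
  refine ⟨k + j, by omega, ?_, hj1⟩
  have h1 := hdist k hk (round ((b : ℝ) ^ k * (h * x)))
  set δ := |(b : ℝ) ^ k * (h * x) - round ((b : ℝ) ^ k * (h * x))| with hδ
  have hδ0 : 0 ≤ δ := abs_nonneg _
  have h2 : (b : ℝ) ^ j < (b : ℝ) ^ (n * (k + e)) := by
    by_contra hge
    push Not at hge
    have h3 : (b : ℝ) ^ (n * (k + e)) * δ ≤ (b : ℝ) ^ j * δ := mul_le_mul_of_nonneg_right hge hδ0
    linarith
  have h3 : j < n * (k + e) := (pow_lt_pow_iff_right₀ hb1).1 h2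
  have h4 : n * (k + e) ≤ n * (e + 1) * k := by
    have h5 : k + e ≤ (e + 1) * k := by nlinarith
    calc n * (k + e) ≤ n * ((e + 1) * k) := Nat.mul_le_mul_left _ h5
      _ = n * (e + 1) * k := by ring
  have h5 : (n * (e + 1) + 2) * k = n * (e + 1) * k + 2 * k := by ring
  omega

lemma round_eq_of {y : ℝ} {z : ℤ} (h : |y - z| < 1 / 2) : round y = z := by
  have h1 := abs_sub_round y
  have h2 : |((round y : ℤ) : ℝ) - z| < 1 := by
    have h3 := abs_sub_le ((round y : ℤ) : ℝ) y z
    rw [abs_sub_comm _ y] at h3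
    linarith
  have h3 : |round y - z| < 1 := by exact_mod_cast h2
  have h4 := Int.abs_lt_one_iff.1 h3
  omega

/-- irrational algebraic numbers -/
theorem gg_alg {b : ℕ} (hb : 2 ≤ b) {x : ℝ} (halg : IsAlgebraic ℚ x) (hirr : Irrational x) :
    ∃ c : ℝ, 0 < c ∧ ∀ᶠ d : ℕ in atTop,
      c * (Real.log d) ^ 3 / (Real.log (Real.log d)) ^ 5 ≤ GG b x d := by
  classical
  have hb1 : (1 : ℝ) < b := by exact_mod_cast (by omega : 1 < b)
  have hb0 : (0 : ℝ) < b := by linarith
  set g : ℕ → ℤ := fun k => if k = 0 then round x else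
    round ((b : ℝ) ^ k * x) - b * round ((b : ℝ) ^ (k - 1) * x) with hg
  have hgk : ∀ k, g (k + 1) = round ((b : ℝ) ^ (k + 1) * x) - b * round ((b : ℝ) ^ k * x) := by
    intro k
    rw [hg]
    simp
  have hgb : ∀ k, |g k| ≤ |round x| + b := by
    intro k
    rcases k with _ | k
    · have : g 0 = round x := by rw [hg]; simp
      rw [this]
      have : (0 : ℤ) ≤ b := Int.natCast_nonneg b
      linarith
    · rw [hgk]
      have h1 := abs_sub_round ((b : ℝ) ^ (k + 1) * x)
      have h2 := abs_sub_round ((b : ℝ) ^ k * x)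
      have h3 : |((round ((b : ℝ) ^ (k + 1) * x) - b * round ((b : ℝ) ^ k * x) : ℤ) : ℝ)| ≤ b := by
        have h4 : ((round ((b : ℝ) ^ (k + 1) * x) - b * round ((b : ℝ) ^ k * x) : ℤ) : ℝ) =
            b * ((b : ℝ) ^ k * x - round ((b : ℝ) ^ k * x)) -
              ((b : ℝ) ^ (k + 1) * x - round ((b : ℝ) ^ (k + 1) * x)) := by
          push_cast
          rw [pow_succ]
          ring
        rw [h4]
        refine (abs_sub _ _).trans ?_
        rw [abs_mul, abs_of_pos hb0]
        nlinarith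
      have h4 : |round ((b : ℝ) ^ (k + 1) * x) - b * round ((b : ℝ) ^ k * x)| ≤ (b : ℤ) := by
        exact_mod_cast h3
      have := abs_nonneg (round x)
      linarith
  have hsum : HasSum (fun k : ℕ => (g k : ℝ) / (b : ℝ) ^ k) x := by
    have hs : Summable (fun k : ℕ => (g k : ℝ) / (b : ℝ) ^ k) := by
      have hr1 : (1 / (b : ℝ)) < 1 := by
        rw [div_lt_one hb0]
        exact hb1
      refine Summable.of_norm_bounded
        ((summable_geometric_of_lt_one (by positivity) hr1).mul_left (((|round x| + b : ℤ)) : ℝ)) fun k => ?_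
      rw [norm_div, norm_pow, Real.norm_of_nonneg hb0.le, one_div_pow, mul_one_div]
      gcongr
      rw [Real.norm_eq_abs]
      exact_mod_cast hgb k
    rw [hs.hasSum_iff_tendsto_nat]
    have hpart : ∀ n : ℕ, ∑ k ∈ range (n + 1), (g k : ℝ) / (b : ℝ) ^ k =
        round ((b : ℝ) ^ n * x) / (b : ℝ) ^ n := by
      intro n
      induction n with
      | zero =>
        have : g 0 = round x := by rw [hg]; simp
        simp [this]
      | succ n ih =>
        rw [sum_range_succ, ih, hgk]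
        push_cast
        rw [pow_succ]
        field_simp
        ring
    rw [← tendsto_add_atTop_iff_nat 1]
    simp only [hpart]
    rw [tendsto_iff_norm_sub_tendsto_zero]
    have h1 : Tendsto (fun n : ℕ => (1 / (b : ℝ)) ^ n) atTop (𝓝 0) := by
      apply tendsto_pow_atTop_nhds_zero_of_lt_one (by positivity)
      rw [div_lt_one hb0]
      exact hb1
    refine squeeze_zero (fun n => norm_nonneg _) (fun n => ?_) h1
    have h2 := abs_sub_round ((b : ℝ) ^ n * x)
    have h3 : (round ((b : ℝ) ^ n * x) : ℝ) / (b : ℝ) ^ n - x =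
        -(((b : ℝ) ^ n * x - round ((b : ℝ) ^ n * x)) / (b : ℝ) ^ n) := by
      field_simp
      ring
    rw [h3, norm_neg, norm_div, Real.norm_eq_abs, Real.norm_of_nonneg (by positivity), one_div_pow]
    gcongr
    linarith
  obtain ⟨c, hc, N0, hN0⟩ := Pool.Agent.TH842.A3.Uni.relations_one x halg hirr b hb g _ hgb hsum 0
    (fun _ => 1) ⟨0, le_rfl, one_ne_zero⟩ 0
  refine ⟨c, hc, ?_⟩
  filter_upwards [eventually_ge_atTop N0] with d hd
  refine (hN0 d hd).trans ?_
  have h1 : ((Icc 1 d).filter (fun k : ℕ => ∑ j ∈ range (0 + 1), (1 : ℤ) * g (k + j) ≠ 0)).card ≤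
      GG b x d := by
    unfold GG
    apply card_le_card_of_injOn (fun k => k - 1)
    · intro k hk
      rw [mem_coe, mem_filter, mem_Icc] at hk
      obtain ⟨⟨hk1, hk2⟩, hk3⟩ := hk
      show (k - 1) ∈ (_ : Set ℕ)
      rw [mem_coe, mem_filter, mem_range]
      refine ⟨by omega, ?_⟩
      simp only [zero_add, range_one, sum_singleton, add_zero, one_mul] at hk3
      obtain ⟨i, rfl⟩ : ∃ i, k = i + 1 := ⟨k - 1, by omega⟩
      rw [Nat.add_sub_cancel]
      by_contra hfar
      unfold Far at hfar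
      push Not at hfar
      obtain ⟨z, hz⟩ := hfar
      apply hk3
      rw [hgk]
      have e1 : round ((b : ℝ) ^ i * x) = z := by
        apply round_eq_of
        refine hz.trans_le ?_
        apply one_div_le_one_div_of_le (by norm_num)
        linarith
      have e2 : round ((b : ℝ) ^ (i + 1) * x) = b * z := by
        apply round_eq_of
        have e3 : (b : ℝ) ^ (i + 1) * x - ((b * z : ℤ) : ℝ) = b * ((b : ℝ) ^ i * x - z) := by
          push_cast
          rw [pow_succ]
          ring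
        rw [e3, abs_mul, abs_of_pos hb0]
        calc (b : ℝ) * |(b : ℝ) ^ i * x - z| < b * (1 / (2 * b)) := by
              apply mul_lt_mul_of_pos_left hz hb0
          _ = 1 / 2 := by field_simp
      rw [e1, e2, sub_self]
    · intro k hk k' hk' h
      rw [mem_coe, mem_filter, mem_Icc] at hk hk'
      simp only at h
      omega
  exact_mod_cast h1

end Pool.Agent.H607.Sp
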