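import Pool.Agent.H607.Sp.Bern
import Mathlib

/-!
# Sums of sparse sets of shifts
-/

set_option autoImplicit false

namespace Pool.Agent.H607.Sp

open Finset Filter Topology MeasureTheory ProbabilityTheory
open Pool.Agent.W206.ND (ee)
open Pool.Agent.H607 Pool.Agent.H607.Mix

/-- `b ^ k x` is not close to an integer -/
def Far (b : ℕ) (x : ℝ) (k : ℕ) : Prop := ∀ z : ℤ, 1 / (2 * (b : ℝ)) ≤ |(b : ℝ) ^ k * x - z|

open Classical in
/-- the number of the `k < d` for which `b ^ k x` is not close to an integer -/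
noncomputable def GG (b : ℕ) (x : ℝ) (d : ℕ) : ℕ := ((range d).filter (Far b x)).card

lemma GG_mono (b : ℕ) (x : ℝ) : Monotone (GG b x) := by
  classical
  intro d d' h
  unfold GG
  exact card_le_card (filter_subset_filter _ (range_subset_range.2 h))

/-- the weights of the places -/
noncomputable def rr (b : ℕ) (i : ℕ) : ℝ := if i = 0 then 0 else 1 / (b : ℝ) ^ i

lemma rr_nonneg (b i : ℕ) : 0 ≤ rr b i := by
  unfold rr
  split_ifs <;> positivity

lemma rr_summable (b : ℕ) (hb : 2 ≤ b) : Summable (rr b) := by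
  refine Summable.of_nonneg_of_le (rr_nonneg b) (fun i => ?_) (summable_geometric_two)
  unfold rr
  split_ifs
  · positivity
  · rw [one_div_pow]
    apply one_div_le_one_div_of_le (by positivity)
    have : (2 : ℝ) ≤ b := by exact_mod_cast hb
    gcongr

lemma one_sub_cos_ge (θ δ : ℝ) (hδ0 : 0 ≤ δ) (hδ : ∀ z : ℤ, δ ≤ |θ - z|) :
    8 * δ ^ 2 ≤ 1 - Real.cos (2 * Real.pi * θ) := by
  have h1 := ee_sub_one_ge θ δ hδ
  have h : ee θ = ((Real.cos (2 * Real.pi * θ) : ℝ) : ℂ) +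
      ((Real.sin (2 * Real.pi * θ) : ℝ) : ℂ) * Complex.I := by
    have h : ee θ = Complex.exp (((2 * Real.pi * θ : ℝ) : ℂ) * Complex.I) := by
      rw [Pool.Agent.W206.ND.ee]; congr 1; push_cast; ring
    rw [h, Complex.exp_mul_I]
    push_cast
    rfl
  have h2 : ‖ee θ - 1‖ ^ 2 = 2 * (1 - Real.cos (2 * Real.pi * θ)) := by
    have h3 : ee θ - 1 = ((Real.cos (2 * Real.pi * θ) - 1 : ℝ) : ℂ) +
      ((Real.sin (2 * Real.pi * θ) : ℝ) : ℂ) * Complex.I := by
      rw [h]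
      push_cast
      ring
    rw [h3, ← Complex.normSq_eq_norm_sq, Complex.normSq_add_mul_I]
    have := Real.sin_sq_add_cos_sq (2 * Real.pi * θ)
    linear_combination this
  have h3 : (4 * δ) ^ 2 ≤ ‖ee θ - 1‖ ^ 2 := by gcongr
  rw [h2] at h3
  nlinarith

lemma coin_le_exp (w b : ℕ) (hw : 2 ≤ w) (hb : 2 ≤ b) (θ : ℝ)
    (h : ∀ z : ℤ, 1 / (4 * (b : ℝ)) ≤ |θ - z|) :
    coin (1 / (w : ℝ)) θ ≤ Real.exp (-(1 / (2 * (b : ℝ) ^ 2 * w))) := by
  have hb0 : (0 : ℝ) < b := by exact_mod_cast (by omega : 0 < b)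
  have hw2 : (2 : ℝ) ≤ w := by exact_mod_cast hw
  have h1 := one_sub_cos_ge θ (1 / (4 * (b : ℝ))) (by positivity) h
  have h2 : 1 / (w : ℝ) ≤ 1 / 2 := one_div_le_one_div_of_le (by norm_num) hw2
  have h3 : 0 < 1 / (w : ℝ) := by positivity
  have h4 : coin (1 / (w : ℝ)) θ ≤ 1 - 1 / (2 * (b : ℝ) ^ 2 * w) := by
    unfold coin
    have h5 : 8 * (1 / (4 * (b : ℝ))) ^ 2 = 1 / (2 * (b : ℝ) ^ 2) := by
      field_simp
      ring
    rw [h5] at h1
    have h6 : 1 / (2 * (b : ℝ) ^ 2 * w) = (1 / (w : ℝ)) * (1 / (2 * (b : ℝ) ^ 2)) := by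
      field_simp
    rw [h6]
    have h7 : 1 / (w : ℝ) ≤ 2 * (1 / (w : ℝ) * (1 - 1 / (w : ℝ))) := by nlinarith
    have h8 : 0 ≤ 1 / (2 * (b : ℝ) ^ 2) := by positivity
    have h9 : (1 / (w : ℝ)) * (1 / (2 * (b : ℝ) ^ 2)) ≤
        2 * (1 / (w : ℝ) * (1 - 1 / (w : ℝ))) * (1 - Real.cos (2 * Real.pi * θ)) :=
      mul_le_mul h7 h1 h8 (by nlinarith)
    linarith
  refine h4.trans ?_
  have := Real.add_one_le_exp (-(1 / (2 * (b : ℝ) ^ 2 * w)))
  linarith

section

variable (w : ℕ → ℕ) [∀ i, NeZero (w i)]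

/-- the random number -/
noncomputable def YY (b : ℕ) (ω : ∀ i, Fin (w i)) : ℝ := ∑' i, bt w i ω * rr b i

omit [∀ i, NeZero (w i)] in
lemma YY_summable (b : ℕ) (hb : 2 ≤ b) (ω : ∀ i, Fin (w i)) : Summable (fun i => bt w i ω * rr b i) := by
  refine Summable.of_nonneg_of_le (fun i => mul_nonneg (bt_nonneg w i ω) (rr_nonneg b i))
    (fun i => ?_) (rr_summable b hb)
  have := bt_le w i ω
  have := rr_nonneg b i
  nlinarith

omit [∀ i, NeZero (w i)] in
lemma YY_meas (b : ℕ) (hb : 2 ≤ b) : Measurable (YY w b) :=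
  gen_meas (bt_meas w) (YY_summable w b hb)

/-- almost sure equidistribution -/
theorem as_bern (hw2 : ∀ i, 2 ≤ w i) (Ψ : ℕ → ℝ) (hΨ : ∀ N, ∀ i ≤ N, (w i : ℝ) ≤ Ψ N) (b : ℕ) (hb : 2 ≤ b)
    (x c : ℝ) (hrich : ∀ C : ℕ, ∀ᶠ N : ℕ in atTop,
      8 * (b : ℝ) ^ 2 * Ψ N * Real.log (Real.log N) ≤ GG b x (⌊(N : ℝ) / (Real.log N) ^ 2⌋₊ - C)) :
    ∀ᵐ ω ∂(unif w), Tendsto (fun N : ℕ =>
      SS (fun n => (x * YY w b ω + c) * (b : ℝ) ^ n) N / (N : ℂ)) atTop (𝓝 0) := by
  classical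
  refine as_far (fun n ω => (x * YY w b ω + c) * (b : ℝ) ^ n) (fun n => ?_) ?_
  · exact (((YY_meas w b hb).const_mul x).add_const c).mul_const _
  have hb0 : (0 : ℝ) < b := by exact_mod_cast (by omega : 0 < b)
  have hb1 : (1 : ℝ) < b := by exact_mod_cast (by omega : 1 < b)
  obtain ⟨C, hC⟩ := ((tendsto_pow_atTop_atTop_of_one_lt hb1).eventually_ge_atTop (|x| * (4 * b))).exists
  filter_upwards [hrich C, eventually_ge_atTop 3] with N hN hN3 n' hn' n hn hR
  have hN3' : (3 : ℝ) ≤ N := by exact_mod_cast hN3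
  have hl1 : 1 < Real.log N := by
    rw [Real.lt_log_iff_exp_lt (by linarith)]
    have := Real.exp_one_lt_d9
    linarith
  have hl0 : 0 < Real.log N := by linarith
  set D := ⌊(N : ℝ) / (Real.log N) ^ 2⌋₊ - C with hD
  have hfl : ⌊(N : ℝ) / (Real.log N) ^ 2⌋₊ ≤ n' - n := by
    apply Nat.floor_le_of_le
    rw [Nat.cast_sub hn.le]
    exact hR
  set T := x * ((b : ℝ) ^ n' - (b : ℝ) ^ n) with hT
  have e1 : ∀ ω, ee ((x * YY w b ω + c) * (b : ℝ) ^ n' - (x * YY w b ω + c) * (b : ℝ) ^ n) =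
      ee (c * ((b : ℝ) ^ n' - (b : ℝ) ^ n)) * ee (T * YY w b ω) := by
    intro ω
    rw [← ee_add]
    congr 1
    rw [hT]
    ring
  simp only [e1]
  rw [integral_const_mul, norm_mul, ee_norm, one_mul]
  -- the set of places
  set K := (range D).filter (Far b x) with hK
  set s := K.image (fun k => n' - k) with hs
  have hinj : Set.InjOn (fun k => n' - k) (K : Set ℕ) := by
    intro k hk k' hk' h
    rw [mem_coe, hK, mem_filter, mem_range] at hk hk'
    simp only at h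
    omega
  have h3 := ch_le_gen (bt_indep w) (bt_meas w) (YY_summable w b hb) 0 s T
  rw [hs, prod_image hinj] at h3
  have h4 : ∀ k ∈ K, ch (unif w) (bt w (n' - k)) (T * rr b (n' - k)) ^ 2 ≤
      Real.exp (-(1 / (2 * (b : ℝ) ^ 2 * Ψ N))) := by
    intro k hk
    rw [hK, mem_filter, mem_range] at hk
    obtain ⟨hk1, hk2⟩ := hk
    rw [bt_ch]
    have hw' := hw2 (n' - k)
    have hwΨ := hΨ N (n' - k) (by omega)
    have hw0 : (0 : ℝ) < w (n' - k) := by exact_mod_cast (by omega : 0 < w (n' - k))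
    refine (coin_le_exp (w (n' - k)) b hw' hb _ ?_).trans ?_
    · intro z
      have h5 : n' - k ≠ 0 := by omega
      obtain ⟨e, he⟩ : ∃ e, n' - k = n + e ∧ C ≤ e := ⟨n' - k - n, by omega, by omega⟩
      have h6 : T * rr b (n' - k) = (b : ℝ) ^ k * x - x / (b : ℝ) ^ e := by
        unfold rr
        rw [if_neg h5, hT]
        have h7 : (b : ℝ) ^ n' = (b : ℝ) ^ (n' - k) * (b : ℝ) ^ k := by
          rw [← pow_add]
          congr 1
          omega
        rw [h7, he.1, pow_add]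
        field_simp
      rw [h6]
      have h7 := hk2 z
      have h8 : |x / (b : ℝ) ^ e| ≤ 1 / (4 * (b : ℝ)) := by
        rw [abs_div, abs_of_pos (by positivity : (0 : ℝ) < (b : ℝ) ^ e), div_le_div_iff₀ (by positivity)
          (by positivity), one_mul]
        exact hC.trans (pow_le_pow_right₀ hb1.le he.2)
      have h9 := abs_sub_abs_le_abs_sub ((b : ℝ) ^ k * x - z) (x / (b : ℝ) ^ e)
      have h10 : (b : ℝ) ^ k * x - x / (b : ℝ) ^ e - z = (b : ℝ) ^ k * x - z - x / (b : ℝ) ^ e := by ring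
      rw [h10]
      have h11 : 1 / (2 * (b : ℝ)) = 1 / (4 * (b : ℝ)) + 1 / (4 * (b : ℝ)) := by
        field_simp
        ring
      linarith
    · apply Real.exp_le_exp.2
      apply neg_le_neg
      apply one_div_le_one_div_of_le (by positivity)
      gcongr
  have h5 := prod_le_prod (fun k _ => by positivity) h4
  rw [prod_const] at h5
  have h6 : ch (unif w) (YY w b) T ^ 2 ≤ (1 / (Real.log N) ^ 2) ^ 2 := by
    have h7 : (YY w b) = fun ω => 0 + ∑' i, bt w i ω * rr b i := by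
      funext ω
      rw [zero_add]
      rfl
    rw [h7]
    refine h3.trans (h5.trans ?_)
    have hΨ0 : 0 < Ψ N := by
      have h8 := hΨ N 0 (Nat.zero_le _)
      have h9 : (2 : ℝ) ≤ w 0 := by exact_mod_cast hw2 0
      linarith
    rw [← Real.exp_nat_mul]
    have h8 : (1 / (Real.log N) ^ 2) ^ 2 = Real.exp (-(4 * Real.log (Real.log N))) := by
      rw [Real.exp_neg, show 4 * Real.log (Real.log N) = ((4 : ℕ) : ℝ) * Real.log (Real.log N) by norm_num,
        Real.exp_nat_mul, Real.exp_log hl0]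
      rw [one_div_pow, one_div, ← pow_mul]
    rw [h8]
    apply Real.exp_le_exp.2
    have h9 : (K.card : ℝ) = GG b x D := rfl
    rw [h9, mul_neg, mul_one_div]
    apply neg_le_neg
    rw [le_div_iff₀ (by positivity)]
    calc 4 * Real.log (Real.log N) * (2 * (b : ℝ) ^ 2 * Ψ N) =
        8 * (b : ℝ) ^ 2 * Ψ N * Real.log (Real.log N) := by ring
      _ ≤ (GG b x D : ℝ) := hN
  have h7 := abs_le_of_sq_le_sq h6 (by positivity)
  unfold ch at h7
  rwa [abs_of_nonneg (norm_nonneg _)] at h7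

end

end Pool.Agent.H607.Sp
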