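import Pool.Agent.H607.Sp.BCorr
import Mathlib

/-!
# The densities
-/

set_option autoImplicit false

namespace Pool.Agent.H607.Sp

open Finset Filter Topology MeasureTheory ProbabilityTheory
open Pool.Agent.W206.ND (ee)
open Pool.Agent.H607 Pool.Agent.H607.Mix

/-- a shifted logarithm -/
noncomputable def LL (β N : ℕ) : ℝ := Real.log (N + 1) + Real.exp β

/-- the reciprocal of the density -/
noncomputable def psi (α β N : ℕ) : ℝ := (LL β N) ^ α / (Real.log (LL β N)) ^ β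

/-- the number of choices at the place `i` -/
noncomputable def wg (α β i : ℕ) : ℕ := ⌊psi α β i⌋₊ + 2

instance (α β i : ℕ) : NeZero (wg α β i) := ⟨by unfold wg; omega⟩

lemma LL_ge (β N : ℕ) : Real.exp β ≤ LL β N := by
  unfold LL
  have : 0 ≤ Real.log ((N : ℝ) + 1) := Real.log_nonneg (by
    have : (0 : ℝ) ≤ N := Nat.cast_nonneg N
    linarith)
  linarith

lemma LL_mono (β : ℕ) {M N : ℕ} (h : M ≤ N) : LL β M ≤ LL β N := by
  unfold LL
  have h0 : (0 : ℝ) ≤ M := Nat.cast_nonneg M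
  have h1 : (M : ℝ) ≤ N := by exact_mod_cast h
  have := Real.log_le_log (by linarith : (0 : ℝ) < (M : ℝ) + 1) (by linarith : (M : ℝ) + 1 ≤ N + 1)
  linarith

lemma log_LL (β N : ℕ) : (β : ℝ) ≤ Real.log (LL β N) := by
  rw [Real.le_log_iff_exp_le ((Real.exp_pos _).trans_le (LL_ge β N))]
  exact LL_ge β N

lemma ratio_mono {α β : ℕ} (hα : 1 ≤ α) (hβ : 1 ≤ β) {x y : ℝ} (hx : Real.exp β ≤ x) (hxy : x ≤ y) :
    x ^ α / (Real.log x) ^ β ≤ y ^ α / (Real.log y) ^ β := by
  have hβ0 : (0 : ℝ) < β := by exact_mod_cast hβ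
  have hx0 : 0 < x := (Real.exp_pos _).trans_le hx
  have hy0 : 0 < y := hx0.trans_le hxy
  have hlx : (β : ℝ) ≤ Real.log x := by rwa [Real.le_log_iff_exp_le hx0]
  have hlx0 : 0 < Real.log x := by linarith
  have hly0 : 0 < Real.log y := hlx0.trans_le (Real.log_le_log hx0 hxy)
  set t := y / x with ht
  have ht1 : 1 ≤ t := by rwa [ht, one_le_div hx0]
  have hy : y = t * x := by rw [ht]; field_simp
  have hlog : Real.log y = Real.log t + Real.log x := by
    rw [hy, Real.log_mul (by linarith) hx0.ne']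
  have hlt : 0 ≤ Real.log t := Real.log_nonneg ht1
  have h1 : Real.log y ≤ Real.log x * (1 + Real.log t / β) := by
    rw [hlog, mul_add, mul_one]
    have : Real.log t ≤ Real.log x * (Real.log t / β) := by
      rw [mul_div_assoc', le_div_iff₀ hβ0]
      nlinarith
    linarith
  have h2 : (1 + Real.log t / β) ^ β ≤ t := by
    have h3 : 1 + Real.log t / β ≤ Real.exp (Real.log t / β) := by
      have := Real.add_one_le_exp (Real.log t / β)
      linarith
    calc (1 + Real.log t / β) ^ β ≤ (Real.exp (Real.log t / β)) ^ β := by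
          apply pow_le_pow_left₀ _ h3
          positivity
      _ = t := by
          rw [← Real.exp_nat_mul, mul_div_cancel₀ _ hβ0.ne', Real.exp_log (by linarith)]
  rw [div_le_div_iff₀ (by positivity) (by positivity)]
  calc x ^ α * Real.log y ^ β ≤ x ^ α * (Real.log x * (1 + Real.log t / β)) ^ β := by gcongr
    _ = x ^ α * (Real.log x ^ β * (1 + Real.log t / β) ^ β) := by rw [mul_pow]
    _ ≤ x ^ α * (Real.log x ^ β * t) := by gcongr
    _ ≤ x ^ α * (Real.log x ^ β * t ^ α) := by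
        gcongr
        exact le_self_pow₀ ht1 (by omega)
    _ = y ^ α * Real.log x ^ β := by rw [hy, mul_pow]; ring

lemma psi_mono {α β : ℕ} (hα : 1 ≤ α) (hβ : 1 ≤ β) {M N : ℕ} (h : M ≤ N) : psi α β M ≤ psi α β N :=
  ratio_mono hα hβ (LL_ge β M) (LL_mono β h)

lemma psi_pos {α β : ℕ} (hβ : 1 ≤ β) (N : ℕ) : 0 < psi α β N := by
  have h1 := LL_ge β N
  have h2 := log_LL β N
  have h3 : (0 : ℝ) < β := by exact_mod_cast hβ
  have h4 : 0 < LL β N := (Real.exp_pos _).trans_le h1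
  have h5 : 0 < Real.log (LL β N) := by linarith
  unfold psi
  positivity

lemma wg_two (α β i : ℕ) : 2 ≤ wg α β i := by unfold wg; omega

lemma wg_le {α β : ℕ} (hα : 1 ≤ α) (hβ : 1 ≤ β) (N i : ℕ) (h : i ≤ N) :
    (wg α β i : ℝ) ≤ psi α β N + 2 := by
  unfold wg
  push_cast
  have h1 := Nat.floor_le (psi_pos (α := α) hβ i).le
  have h2 := psi_mono hα hβ h
  linarith

lemma wg_ge {α β : ℕ} (i : ℕ) : psi α β i ≤ wg α β i := by
  unfold wg
  push_cast
  have h1 := Nat.lt_floor_add_one (psi α β i)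
  linarith

/-! ### asymptotics -/

lemma tend_log : Tendsto (fun N : ℕ => Real.log N) atTop atTop :=
  Real.tendsto_log_atTop.comp tendsto_natCast_atTop_atTop

lemma tend_loglog : Tendsto (fun N : ℕ => Real.log (Real.log N)) atTop atTop :=
  Real.tendsto_log_atTop.comp tend_log

/-- powers of the logarithm are small -/
lemma pow_log_le (k : ℕ) (A : ℝ) : ∀ᶠ y : ℝ in atTop, A * (Real.log y) ^ k ≤ y := by
  have h2 := (Real.isLittleO_pow_log_id_atTop (n := k)).def (show (0 : ℝ) < 1 / (|A| + 1) by positivity)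
  filter_upwards [h2, eventually_ge_atTop (1 : ℝ)] with y hy hy1
  rw [Real.norm_eq_abs, Real.norm_eq_abs, id, abs_of_nonneg (by linarith : (0 : ℝ) ≤ y),
    abs_of_nonneg (pow_nonneg (Real.log_nonneg hy1) k), one_div, inv_mul_eq_div,
    le_div_iff₀ (by positivity)] at hy
  have h3 : 0 ≤ (Real.log y) ^ k := pow_nonneg (Real.log_nonneg hy1) k
  have h4 := le_abs_self A
  nlinarith

lemma pow_log_sqrt (k : ℕ) (A : ℝ) : ∀ᶠ N : ℕ in atTop, A * (Real.log N) ^ k ≤ Real.sqrt N := by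
  have h1 : Tendsto (fun N : ℕ => Real.sqrt N) atTop atTop :=
    Real.tendsto_sqrt_atTop.comp tendsto_natCast_atTop_atTop
  filter_upwards [h1.eventually (pow_log_le k (A * 2 ^ k)), eventually_ge_atTop 1] with N hN hN1
  have h2 : Real.log N = 2 * Real.log (Real.sqrt N) := by
    have h3 : (0 : ℝ) ≤ N := Nat.cast_nonneg N
    conv_lhs => rw [← Real.sq_sqrt h3]
    rw [Real.log_pow]
    norm_num
  rw [h2, mul_pow, ← mul_assoc]
  exact hN

theorem rich_of {b : ℕ} {x : ℝ} (α γ : ℕ) (hα : 1 ≤ α) (hb : 2 ≤ b) {c : ℝ} (hc : 0 < c)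
    (hG : ∀ᶠ d : ℕ in atTop, c * (Real.log d) ^ α / (Real.log (Real.log d)) ^ γ ≤ GG b x d) (C : ℕ) :
    ∀ᶠ N : ℕ in atTop, 8 * (b : ℝ) ^ 2 * (psi α (γ + 2) N + 2) * Real.log (Real.log N) ≤
      GG b x (⌊(N : ℝ) / (Real.log N) ^ 2⌋₊ - C) := by
  obtain ⟨d₀, hd₀⟩ := eventually_atTop.1 hG
  have hb0 : (0 : ℝ) < b := by exact_mod_cast (by omega : 0 < b)
  filter_upwards [pow_log_sqrt 2 (C + 2), tend_log.eventually_ge_atTop (Real.exp ((γ + 2 : ℕ) : ℝ) + 2),
    tend_loglog.eventually_ge_atTop (16 * (b : ℝ) ^ 2 * 4 ^ α / c + 1),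
    tend_log.eventually (pow_log_le (γ + 1) (16 * (b : ℝ) ^ 2 * 2 ^ (α + 1) / c)),
    (Real.tendsto_sqrt_atTop.comp tendsto_natCast_atTop_atTop).eventually_ge_atTop ((d₀ : ℝ) + 16),
    eventually_ge_atTop 3] with N h1 h2 h3 h4 h5 h6
  simp only [Function.comp_apply] at h5
  set l := Real.log N with hl
  set t := Real.log l with ht
  have hN0 : (0 : ℝ) < N := by exact_mod_cast (by omega : 0 < N)
  have hN1 : (1 : ℝ) ≤ N := by exact_mod_cast (by omega : 1 ≤ N)
  have hexp1 : 1 ≤ Real.exp ((γ + 2 : ℕ) : ℝ) := Real.one_le_exp (Nat.cast_nonneg _)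
  have hl2 : 2 < l := by linarith
  have hl0 : 0 < l := by linarith
  have ht1 : 1 ≤ t := by
    have : 0 ≤ 16 * (b : ℝ) ^ 2 * 4 ^ α / c := by positivity
    linarith
  have ht0 : 0 < t := by linarith
  have hs0 : 16 ≤ Real.sqrt N := by
    have : (0 : ℝ) ≤ d₀ := Nat.cast_nonneg _
    linarith
  -- the size of `d`
  set d := ⌊(N : ℝ) / l ^ 2⌋₊ - C with hd
  have hd1 : Real.sqrt N ≤ d := by
    have e1 : ((C : ℝ) + 2) * Real.sqrt N ≤ N / l ^ 2 := by
      rw [le_div_iff₀ (by positivity)]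
      have e2 : Real.sqrt N * Real.sqrt N = N := Real.mul_self_sqrt hN0.le
      nlinarith
    have e3 : (N : ℝ) / l ^ 2 < ⌊(N : ℝ) / l ^ 2⌋₊ + 1 := Nat.lt_floor_add_one _
    have e4 : ((⌊(N : ℝ) / l ^ 2⌋₊ : ℕ) : ℝ) ≤ d + C := by
      have : ⌊(N : ℝ) / l ^ 2⌋₊ ≤ d + C := by omega
      exact_mod_cast this
    have e5 : (0 : ℝ) ≤ C := Nat.cast_nonneg _
    nlinarith
  have hd2 : (d : ℝ) ≤ N := by
    have e1 : d ≤ ⌊(N : ℝ) / l ^ 2⌋₊ := Nat.sub_le _ _
    have e2 : ((⌊(N : ℝ) / l ^ 2⌋₊ : ℕ) : ℝ) ≤ N / l ^ 2 := Nat.floor_le (by positivity)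
    have e3 : (N : ℝ) / l ^ 2 ≤ N := by
      apply div_le_self hN0.le
      nlinarith
    have e4 : (d : ℝ) ≤ ((⌊(N : ℝ) / l ^ 2⌋₊ : ℕ) : ℝ) := by exact_mod_cast e1
    linarith
  have hdd₀ : d₀ ≤ d := by
    have : (d₀ : ℝ) ≤ d := by linarith
    exact_mod_cast this
  have hld : l / 2 ≤ Real.log d := by
    have e1 : Real.log (Real.sqrt N) ≤ Real.log d := Real.log_le_log (by linarith) hd1
    rwa [Real.log_sqrt hN0.le] at e1
  have hld2 : Real.log d ≤ l := Real.log_le_log (by linarith) hd2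
  have hd16 : (16 : ℝ) ≤ d := hs0.trans hd1
  have hlog4 : (1 : ℝ) < Real.log 4 := by
    rw [Real.lt_log_iff_exp_lt (by norm_num)]
    have := Real.exp_one_lt_d9
    linarith
  have hlld : 0 < Real.log (Real.log d) := by
    apply Real.log_pos
    refine hlog4.trans_le (Real.log_le_log (by norm_num) (by linarith))
  have hlld2 : Real.log (Real.log d) ≤ t := Real.log_le_log (by linarith) hld2
  refine le_trans ?_ (hd₀ d hdd₀)
  -- lower bound of the right side
  have hR : c * (l / 2) ^ α / t ^ γ ≤ c * Real.log d ^ α / Real.log (Real.log d) ^ γ := by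
    apply div_le_div₀ (by positivity) _ (by positivity)
    · exact pow_le_pow_left₀ hlld.le hlld2 _
    · gcongr
  refine le_trans ?_ hR
  -- upper bound of `psi`
  have hLl : l ≤ LL (γ + 2) N := by
    unfold LL
    have e1 : l ≤ Real.log ((N : ℝ) + 1) := Real.log_le_log hN0 (by linarith)
    linarith
  have hL2 : LL (γ + 2) N ≤ 2 * l := by
    unfold LL
    have e1 : Real.log ((N : ℝ) + 1) ≤ Real.log (2 * N) := Real.log_le_log (by linarith) (by linarith)
    rw [Real.log_mul (by norm_num) hN0.ne'] at e1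
    have e2 := Real.log_two_lt_d9
    linarith
  have hpsi : psi α (γ + 2) N ≤ (2 * l) ^ α / t ^ (γ + 2) := by
    unfold psi
    apply div_le_div₀ (by positivity) _ (by positivity)
    · exact pow_le_pow_left₀ ht0.le (Real.log_le_log hl0 hLl) _
    · exact pow_le_pow_left₀ (by linarith) hL2 _
  have hA : 8 * (b : ℝ) ^ 2 * ((2 * l) ^ α / t ^ (γ + 2)) * t ≤ c * (l / 2) ^ α / t ^ γ / 2 := by
    have e1 : 16 * (b : ℝ) ^ 2 * 4 ^ α ≤ c * t := by
      have : 16 * (b : ℝ) ^ 2 * 4 ^ α / c ≤ t := by linarith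
      rw [div_le_iff₀ hc] at this
      linarith
    have e2 : (2 * l) ^ α = 4 ^ α * (l / 2) ^ α := by
      rw [← mul_pow]
      congr 1
      ring
    rw [e2]
    have e3 : 8 * (b : ℝ) ^ 2 * (4 ^ α * (l / 2) ^ α / t ^ (γ + 2)) * t =
        (16 * (b : ℝ) ^ 2 * 4 ^ α) * ((l / 2) ^ α / t ^ (γ + 1)) / 2 := by
      rw [pow_succ t (γ + 1)]
      field_simp
      ring
    have e4 : c * (l / 2) ^ α / t ^ γ / 2 = (c * t) * ((l / 2) ^ α / t ^ (γ + 1)) / 2 := by
      rw [pow_succ]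
      field_simp
    rw [e3, e4]
    gcongr
  have hB : 8 * (b : ℝ) ^ 2 * 2 * t ≤ c * (l / 2) ^ α / t ^ γ / 2 := by
    have e1 : 16 * (b : ℝ) ^ 2 * 2 ^ (α + 1) * t ^ (γ + 1) ≤ c * l := by
      rw [div_mul_eq_mul_div, div_le_iff₀ hc] at h4
      linarith
    have e2 : l ≤ l ^ α := le_self_pow₀ (by linarith) (by omega)
    have e3 : c * (l / 2) ^ α / t ^ γ / 2 = c * l ^ α / (2 ^ (α + 1) * t ^ γ) := by
      rw [div_pow, pow_succ]
      field_simp
    rw [e3, le_div_iff₀ (by positivity)]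
    calc 8 * (b : ℝ) ^ 2 * 2 * t * (2 ^ (α + 1) * t ^ γ) =
        16 * (b : ℝ) ^ 2 * 2 ^ (α + 1) * t ^ (γ + 1) := by rw [pow_succ t]; ring
      _ ≤ c * l := e1
      _ ≤ c * l ^ α := by gcongr
  calc 8 * (b : ℝ) ^ 2 * (psi α (γ + 2) N + 2) * t ≤
      8 * (b : ℝ) ^ 2 * ((2 * l) ^ α / t ^ (γ + 2) + 2) * t := by gcongr
    _ = 8 * (b : ℝ) ^ 2 * ((2 * l) ^ α / t ^ (γ + 2)) * t + 8 * (b : ℝ) ^ 2 * 2 * t := by ring
    _ ≤ c * (l / 2) ^ α / t ^ γ := by linarith

/-! ### the number of places -/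

lemma Ex_upper {α β : ℕ} (hβ : 1 ≤ β) (N : ℕ) (hN : 3 ≤ N) :
    Ex (wg α β) N ≤ (Real.log (LL β N)) ^ β * ((Real.sqrt N + 1) + N * (2 / Real.log N) ^ α) := by
  have hN0 : (0 : ℝ) < N := by exact_mod_cast (by omega : 0 < N)
  have hN1 : (1 : ℝ) < N := by exact_mod_cast (by omega : 1 < N)
  have hl0 : 0 < Real.log N := Real.log_pos hN1
  have hβ0 : (1 : ℝ) ≤ β := by exact_mod_cast hβ
  have h1 : ∀ i ∈ range N, 1 / (wg α β i : ℝ) ≤ (Real.log (LL β N)) ^ β *
      ((if (i : ℝ) < Real.sqrt N then 1 else 0) + (2 / Real.log N) ^ α) := by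
    intro i hi
    rw [mem_range] at hi
    have h2 := LL_ge β i
    have h3 : 0 < LL β i := (Real.exp_pos _).trans_le h2
    have h4 := log_LL β i
    have h5 : Real.log (LL β i) ≤ Real.log (LL β N) := Real.log_le_log h3 (LL_mono β hi.le)
    have h6 : 1 / (wg α β i : ℝ) ≤ 1 / psi α β i :=
      one_div_le_one_div_of_le (psi_pos hβ i) (wg_ge i)
    have h7 : 1 / psi α β i = (Real.log (LL β i)) ^ β * (1 / (LL β i) ^ α) := by
      unfold psi
      rw [one_div_div]
      ring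
    have h8 : 1 / (LL β i) ^ α ≤ (if (i : ℝ) < Real.sqrt N then 1 else 0) + (2 / Real.log N) ^ α := by
      split_ifs with hc
      · have h9 : 1 ≤ LL β i := (Real.one_le_exp (by positivity)).trans h2
        have h10 : 1 / (LL β i) ^ α ≤ 1 := by
          rw [div_le_one (by positivity)]
          exact one_le_pow₀ h9
        have : 0 ≤ (2 / Real.log N) ^ α := by positivity
        linarith
      · push Not at hc
        have h9 : Real.log N / 2 ≤ LL β i := by
          rw [← Real.log_sqrt hN0.le]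
          unfold LL
          have h10 : Real.log (Real.sqrt N) ≤ Real.log ((i : ℝ) + 1) :=
            Real.log_le_log (Real.sqrt_pos.2 hN0) (by linarith)
          have := Real.exp_pos (β : ℝ)
          linarith
        have h10 : 1 / LL β i ≤ 2 / Real.log N := by
          rw [div_le_div_iff₀ h3 hl0]
          linarith
        rw [zero_add, ← one_div_pow]
        exact pow_le_pow_left₀ (by positivity) h10 _
    rw [h7] at h6
    refine h6.trans ?_
    apply mul_le_mul _ h8 (by positivity)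
    · exact pow_nonneg (by linarith) _
    · exact pow_le_pow_left₀ (by linarith) h5 _
  unfold Ex
  refine (sum_le_sum h1).trans ?_
  rw [← mul_sum, sum_add_distrib, ← sum_filter, sum_const, sum_const, card_range, nsmul_eq_mul,
    nsmul_eq_mul, mul_one]
  have h2 : (((range N).filter fun i : ℕ => (i : ℝ) < Real.sqrt N).card : ℝ) ≤ Real.sqrt N + 1 := by
    have h3 : (range N).filter (fun i : ℕ => (i : ℝ) < Real.sqrt N) ⊆ range (⌊Real.sqrt N⌋₊ + 1) := by
      intro i hi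
      rw [mem_filter] at hi
      rw [mem_range, Nat.lt_succ_iff]
      exact Nat.le_floor hi.2.le
    have h4 := card_le_card h3
    rw [card_range] at h4
    have h5 : (((range N).filter fun i : ℕ => (i : ℝ) < Real.sqrt N).card : ℝ) ≤ ⌊Real.sqrt N⌋₊ + 1 := by
      exact_mod_cast h4
    have h6 := Nat.floor_le (Real.sqrt_nonneg (N : ℝ))
    linarith
  have h3 : 0 ≤ (Real.log (LL β N)) ^ β := pow_nonneg (by linarith [log_LL β N]) _
  apply mul_le_mul_of_nonneg_left _ h3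
  linarith

theorem count_final (α β : ℕ) (hβ : 1 ≤ β) :
    ∀ᶠ N : ℕ in atTop, 2 * Ex (wg α β) (2 * (N + 1)) ≤
      N * (Real.log (Real.log N)) ^ (β + 1) / (Real.log N) ^ α := by
  filter_upwards [pow_log_sqrt α 4, tend_log.eventually_ge_atTop (Real.exp (β : ℝ) + 4),
    tend_loglog.eventually_ge_atTop ((2 : ℝ) ^ (β + 1) * (1 + 2 ^ (α + 2)) + 1),
    eventually_ge_atTop 5] with N h1 h2 h3 h5
  set l := Real.log N with hl
  set t := Real.log l with ht
  set M := 2 * (N + 1) with hM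
  have hN0 : (0 : ℝ) < N := by exact_mod_cast (by omega : 0 < N)
  have hN5 : (5 : ℝ) ≤ N := by exact_mod_cast h5
  have hexp0 : 0 < Real.exp (β : ℝ) := Real.exp_pos _
  have hl0 : 4 < l := by linarith
  have ht1 : 1 ≤ t := by
    have : 0 ≤ (2 : ℝ) ^ (β + 1) * (1 + 2 ^ (α + 2)) := by positivity
    linarith
  have hMR : (M : ℝ) = 2 * N + 2 := by rw [hM]; push_cast; ring
  have hM4 : (M : ℝ) ≤ 4 * N := by linarith
  have hMN : (N : ℝ) ≤ M := by linarith
  have hlM : l ≤ Real.log M := Real.log_le_log hN0 hMN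
  have hsq : Real.sqrt M + 1 ≤ 4 * Real.sqrt N := by
    have e1 : Real.sqrt M ≤ 2 * Real.sqrt N := by
      have : Real.sqrt (4 * N) = 2 * Real.sqrt N := by
        rw [Real.sqrt_mul (by norm_num), show (4 : ℝ) = 2 ^ 2 by norm_num, Real.sqrt_sq (by norm_num)]
      rw [← this]
      exact Real.sqrt_le_sqrt hM4
    have e2 : 1 ≤ Real.sqrt N := by
      rw [Real.one_le_sqrt]
      linarith
    linarith
  have hLM : Real.log (LL β M) ≤ 2 * t := by
    have e1 : LL β M ≤ l ^ 2 := by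
      unfold LL
      have e2 : Real.log ((M : ℝ) + 1) ≤ Real.log (4 * N) := Real.log_le_log (by linarith) (by linarith)
      rw [Real.log_mul (by norm_num) hN0.ne'] at e2
      have e3 : Real.log 4 ≤ 3 := by
        have := Real.log_le_sub_one_of_pos (show (0 : ℝ) < 4 by norm_num)
        linarith
      nlinarith
    calc Real.log (LL β M) ≤ Real.log (l ^ 2) :=
          Real.log_le_log ((Real.exp_pos _).trans_le (LL_ge β M)) e1
      _ = 2 * t := by rw [Real.log_pow, ht]; norm_num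
  have hE := Ex_upper (α := α) hβ M (by omega)
  have hlogLL0 : 0 ≤ Real.log (LL β M) := le_trans (Nat.cast_nonneg _) (log_LL β M)
  have hlα : 0 < l ^ α := by positivity
  have hpart : (Real.sqrt M + 1) + M * (2 / Real.log M) ^ α ≤ (1 + 2 ^ (α + 2)) * (N / l ^ α) := by
    have e1 : Real.sqrt M + 1 ≤ N / l ^ α := by
      rw [le_div_iff₀ hlα]
      have e2 : Real.sqrt N * Real.sqrt N = N := Real.mul_self_sqrt hN0.le
      have e3 : 0 ≤ Real.sqrt N := Real.sqrt_nonneg _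
      calc (Real.sqrt M + 1) * l ^ α ≤ 4 * Real.sqrt N * l ^ α := by gcongr
        _ = (4 * l ^ α) * Real.sqrt N := by ring
        _ ≤ Real.sqrt N * Real.sqrt N := by gcongr
        _ = N := e2
    have e4 : (M : ℝ) * (2 / Real.log M) ^ α ≤ 2 ^ (α + 2) * (N / l ^ α) := by
      calc (M : ℝ) * (2 / Real.log M) ^ α ≤ 4 * N * (2 / l) ^ α := by
            gcongr
        _ = 2 ^ (α + 2) * (N / l ^ α) := by
            rw [div_pow, pow_add]
            ring
    linarith
  have ht0 : 0 < t := by linarith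
  calc 2 * Ex (wg α β) M ≤ 2 * ((Real.log (LL β M)) ^ β * ((Real.sqrt M + 1) +
        M * (2 / Real.log M) ^ α)) := by linarith
    _ ≤ 2 * ((2 * t) ^ β * ((1 + 2 ^ (α + 2)) * (N / l ^ α))) := by
        gcongr
    _ = (2 ^ (β + 1) * (1 + 2 ^ (α + 2))) * t ^ β * (N / l ^ α) := by
        rw [mul_pow, pow_succ (2 : ℝ) β]
        ring
    _ ≤ t * t ^ β * (N / l ^ α) := by
        gcongr
        linarith
    _ = N * t ^ (β + 1) / l ^ α := by
        rw [pow_succ]
        ring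

lemma Ex_lower {α β : ℕ} (hα : 1 ≤ α) (hβ : 1 ≤ β) (N : ℕ) :
    (N : ℝ) / ((LL β N) ^ α + 2) ≤ Ex (wg α β) N := by
  have h1 := LL_ge β N
  have h3 : 0 < LL β N := (Real.exp_pos _).trans_le h1
  have hβ0 : (1 : ℝ) ≤ β := by exact_mod_cast hβ
  have h4 : psi α β N ≤ (LL β N) ^ α := by
    unfold psi
    apply div_le_self (by positivity)
    exact one_le_pow₀ (hβ0.trans (log_LL β N))
  unfold Ex
  have h5 : ∀ i ∈ range N, 1 / ((LL β N) ^ α + 2) ≤ 1 / (wg α β i : ℝ) := by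
    intro i hi
    rw [mem_range] at hi
    have h6 := wg_le hα hβ N i hi.le
    have h7 : (0 : ℝ) < wg α β i := by
      have := wg_two α β i
      exact_mod_cast (by omega : 0 < wg α β i)
    apply one_div_le_one_div_of_le h7
    linarith
  have h6 := sum_le_sum h5
  rw [sum_const, card_range, nsmul_eq_mul, mul_one_div] at h6
  exact h6

lemma Ex_pos {α β : ℕ} (hα : 1 ≤ α) (hβ : 1 ≤ β) (N : ℕ) (hN : 1 ≤ N) : 0 < Ex (wg α β) N := by
  refine lt_of_lt_of_le ?_ (Ex_lower hα hβ N)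
  have h3 : 0 < LL β N := (Real.exp_pos _).trans_le (LL_ge β N)
  have h4 : (0 : ℝ) < N := by exact_mod_cast hN
  positivity

lemma Ex_summable {α β : ℕ} (hα : 1 ≤ α) (hβ : 1 ≤ β) :
    Summable (fun j : ℕ => 1 / Ex (wg α β) (2 ^ j)) := by
  set K : ℝ := Real.exp (β : ℝ) with hK
  have hK0 : 0 < K := Real.exp_pos _
  have h1 : Summable (fun j : ℕ => (((j + 1 : ℕ) : ℝ)) ^ α * (1 / 2 : ℝ) ^ (j + 1)) := by
    have h2 := summable_pow_mul_geometric_of_norm_lt_one α (r := (1 / 2 : ℝ)) (by norm_num)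
    exact (summable_nat_add_iff 1).2 h2
  refine Summable.of_nonneg_of_le (fun j => ?_) (fun j => ?_) (h1.mul_left (6 * (1 + K) ^ α))
  · have := Ex_pos hα hβ (2 ^ j) Nat.one_le_two_pow
    positivity
  · have h2 := Ex_lower hα hβ (2 ^ j)
    have h3 : 0 < LL β (2 ^ j) := (Real.exp_pos _).trans_le (LL_ge β _)
    have h4 : (0 : ℝ) < ((2 ^ j : ℕ) : ℝ) := by positivity
    have h5 : 1 / Ex (wg α β) (2 ^ j) ≤ ((LL β (2 ^ j)) ^ α + 2) / ((2 ^ j : ℕ) : ℝ) := by
      rw [div_le_div_iff₀ (Ex_pos hα hβ (2 ^ j) Nat.one_le_two_pow) h4, one_mul]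
      rw [div_le_iff₀ (by positivity)] at h2
      linarith
    refine h5.trans ?_
    have h6 : LL β (2 ^ j) ≤ (1 + K) * ((j + 1 : ℕ) : ℝ) := by
      unfold LL
      have h7 : Real.log (((2 ^ j : ℕ) : ℝ) + 1) ≤ ((j + 1 : ℕ) : ℝ) := by
        have h8 : (((2 ^ j : ℕ) : ℝ) + 1) ≤ 2 ^ (j + 1) := by
          have : 2 ^ j + 1 ≤ 2 ^ (j + 1) := by
            have := Nat.one_le_two_pow (n := j)
            rw [pow_succ]
            omega
          exact_mod_cast this
        have h9 := Real.log_le_log (by positivity) h8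
        rw [Real.log_pow] at h9
        have h10 := Real.log_two_lt_d9
        have h11 : (0 : ℝ) ≤ ((j + 1 : ℕ) : ℝ) := Nat.cast_nonneg _
        nlinarith
      have h8 : (1 : ℝ) ≤ ((j + 1 : ℕ) : ℝ) := by
        exact_mod_cast Nat.succ_le_succ (Nat.zero_le j)
      nlinarith
    have h7 : (LL β (2 ^ j)) ^ α ≤ (1 + K) ^ α * (((j + 1 : ℕ) : ℝ)) ^ α := by
      rw [← mul_pow]
      exact pow_le_pow_left₀ h3.le h6 _
    have h8 : (1 : ℝ) ≤ (1 + K) ^ α * (((j + 1 : ℕ) : ℝ)) ^ α := by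
      rw [← mul_pow]
      apply one_le_pow₀
      have h8 : (1 : ℝ) ≤ ((j + 1 : ℕ) : ℝ) := by
        exact_mod_cast Nat.succ_le_succ (Nat.zero_le j)
      nlinarith
    calc ((LL β (2 ^ j)) ^ α + 2) / ((2 ^ j : ℕ) : ℝ) ≤
        (3 * ((1 + K) ^ α * (((j + 1 : ℕ) : ℝ)) ^ α)) / ((2 ^ j : ℕ) : ℝ) := by
          gcongr
          linarith
      _ = 6 * (1 + K) ^ α * ((((j + 1 : ℕ) : ℝ)) ^ α * (1 / 2 : ℝ) ^ (j + 1)) := by
          push_cast
          rw [one_div_pow, pow_succ]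
          field_simp
          ring

end Pool.Agent.H607.Sp
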