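import Pool.Agent.H607.Sp.Far
import Pool.Agent.H607.Mix.BL
import Pool.Agent.H607.UnifDigits
import Mathlib

/-!
# Random sets of places
-/

set_option autoImplicit false

namespace Pool.Agent.H607.Sp

open Finset Filter Topology MeasureTheory ProbabilityTheory
open Pool.Agent.W206.ND (ee)
open Pool.Agent.H607 Pool.Agent.H607.Mix

section

variable (w : ℕ → ℕ) [∀ i, NeZero (w i)]

/-- the indicator of the place `i` -/
noncomputable def bt (i : ℕ) (ω : ∀ i, Fin (w i)) : ℝ := if (ω i : ℕ) = 0 then 1 else 0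

omit [∀ i, NeZero (w i)] in
lemma bt_cases (i : ℕ) (ω : ∀ i, Fin (w i)) : bt w i ω = 0 ∨ bt w i ω = 1 := by
  unfold bt
  split_ifs
  · exact Or.inr rfl
  · exact Or.inl rfl

omit [∀ i, NeZero (w i)] in
lemma bt_nonneg (i : ℕ) (ω : ∀ i, Fin (w i)) : 0 ≤ bt w i ω := by
  rcases bt_cases w i ω with h | h <;> rw [h] <;> norm_num

omit [∀ i, NeZero (w i)] in
lemma bt_le (i : ℕ) (ω : ∀ i, Fin (w i)) : bt w i ω ≤ 1 := by
  rcases bt_cases w i ω with h | h <;> rw [h] <;> norm_num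

omit [∀ i, NeZero (w i)] in
lemma bt_meas (i : ℕ) : Measurable (bt w i) := by
  unfold bt
  exact (measurable_of_finite (fun a : Fin (w i) => if (a : ℕ) = 0 then (1 : ℝ) else 0)).comp
    (measurable_pi_apply i)

lemma bt_indep : iIndepFun (bt w) (unif w) :=
  iIndepFun_infinitePi (P := fun i => (PMF.uniformOfFintype (Fin (w i))).toMeasure)
    (X := fun i (a : Fin (w i)) => if (a : ℕ) = 0 then (1 : ℝ) else 0)
    (fun i => measurable_of_finite _)

lemma bt_int {E : Type*} [NormedAddCommGroup E] [NormedSpace ℝ E] [CompleteSpace E] [MeasurableSpace E]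
    (i : ℕ) (f : ℝ → E) :
    ∫ ω, f (bt w i ω) ∂(unif w) = (1 / (w i : ℝ)) • f 1 + (1 - 1 / (w i : ℝ)) • f 0 := by
  have h1 : ∫ ω, f (bt w i ω) ∂(unif w) =
      ∫ a, f (if (a : ℕ) = 0 then 1 else 0) ∂((PMF.uniformOfFintype (Fin (w i))).toMeasure) := by
    have h2 := Measure.infinitePi_map_eval
      (fun i => (PMF.uniformOfFintype (Fin (w i))).toMeasure) i
    rw [← h2, integral_map]
    · rfl
    · exact (measurable_pi_apply i).aemeasurable
    · exact StronglyMeasurable.aestronglyMeasurable (StronglyMeasurable.of_discrete)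
  rw [h1, PMF.integral_eq_sum]
  have hw : (w i : ℝ) ≠ 0 := by exact_mod_cast NeZero.ne (w i)
  have h3 : ∀ a : Fin (w i), ((PMF.uniformOfFintype (Fin (w i))) a).toReal •
      f (if (a : ℕ) = 0 then 1 else 0) = (1 / (w i : ℝ)) • f 0 +
        (if a = 0 then (1 / (w i : ℝ)) • (f 1 - f 0) else 0) := by
    intro a
    rw [PMF.uniformOfFintype_apply, Fintype.card_fin, ENNReal.toReal_inv, ENNReal.toReal_natCast, ← one_div]
    by_cases ha : a = 0
    · subst ha
      simp only [Fin.val_zero, if_true, smul_sub]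
      abel
    · have : (a : ℕ) ≠ 0 := fun h => ha (Fin.ext h)
      rw [if_neg this, if_neg ha, add_zero]
  rw [sum_congr rfl fun a _ => h3 a, sum_add_distrib, sum_const, card_univ, Fintype.card_fin,
    sum_ite_eq' univ (0 : Fin (w i)) _]
  simp only [mem_univ, if_true]
  rw [← Nat.cast_smul_eq_nsmul ℝ, smul_smul, mul_one_div, div_self hw, one_smul, smul_sub, sub_smul,
    one_smul]
  abel

lemma bt_ch (i : ℕ) (t : ℝ) : ch (unif w) (bt w i) t ^ 2 = coin (1 / (w i : ℝ)) t := by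
  unfold ch
  rw [bt_int w i (fun s => ee (t * s)), ← coin_eq]
  congr 2
  rw [mul_one, mul_zero, ee_zero, Complex.real_smul, Complex.real_smul]
  push_cast
  ring

lemma bt_mean (i : ℕ) : ∫ ω, bt w i ω ∂(unif w) = 1 / (w i : ℝ) := by
  have := bt_int w i (fun s => s)
  simpa using this

/-- the expected number of places -/
noncomputable def Ex (N : ℕ) : ℝ := ∑ i ∈ range N, 1 / (w i : ℝ)

/-- the number of places -/
noncomputable def Ct (N : ℕ) (ω : ∀ i, Fin (w i)) : ℝ := ∑ i ∈ range N, bt w i ω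

omit [∀ i, NeZero (w i)] in
lemma Ct_meas (N : ℕ) : Measurable (Ct w N) := by
  unfold Ct
  exact Finset.measurable_sum _ fun i _ => bt_meas w i

omit [∀ i, NeZero (w i)] in
lemma Ct_nonneg (N : ℕ) (ω : ∀ i, Fin (w i)) : 0 ≤ Ct w N ω := sum_nonneg fun i _ => bt_nonneg w i ω

omit [∀ i, NeZero (w i)] in
lemma Ct_le (N : ℕ) (ω : ∀ i, Fin (w i)) : Ct w N ω ≤ N := by
  unfold Ct
  refine (sum_le_sum fun i _ => bt_le w i ω).trans ?_
  simp

omit [∀ i, NeZero (w i)] in
lemma Ct_mono (ω : ∀ i, Fin (w i)) : Monotone (fun N => Ct w N ω) := by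
  intro N N' h
  unfold Ct
  exact sum_le_sum_of_subset_of_nonneg (range_subset_range.2 h) fun i _ _ => bt_nonneg w i ω

omit [∀ i, NeZero (w i)] in
lemma Ex_mono : Monotone (Ex w) := by
  intro N N' h
  unfold Ex
  exact sum_le_sum_of_subset_of_nonneg (range_subset_range.2 h) fun i _ _ => by positivity

lemma bt_integrable (i : ℕ) : Integrable (bt w i) (unif w) := by
  refine Integrable.mono' (integrable_const (1 : ℝ)) (bt_meas w i).aestronglyMeasurable
    (ae_of_all _ fun ω => ?_)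
  rw [Real.norm_of_nonneg (bt_nonneg w i ω)]
  exact bt_le w i ω

lemma bt_memLp (i : ℕ) : MemLp (bt w i) 2 (unif w) := by
  refine MemLp.of_bound (bt_meas w i).aestronglyMeasurable 1 (ae_of_all _ fun ω => ?_)
  rw [Real.norm_of_nonneg (bt_nonneg w i ω)]
  exact bt_le w i ω

lemma Ct_mean (N : ℕ) : ∫ ω, Ct w N ω ∂(unif w) = Ex w N := by
  unfold Ct Ex
  rw [integral_finsetSum _ fun i _ => bt_integrable w i]
  exact sum_congr rfl fun i _ => bt_mean w i

/-- the variance of the number of places -/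
lemma Ct_var (N : ℕ) : ∫ ω, (Ct w N ω - Ex w N) ^ 2 ∂(unif w) ≤ Ex w N := by
  have h1 : variance (∑ i ∈ range N, bt w i) (unif w) = ∑ i ∈ range N, variance (bt w i) (unif w) := by
    apply IndepFun.variance_sum
    · intro i _
      exact bt_memLp w i
    · intro i _ j _ hij
      exact (bt_indep w).indepFun hij
  have h2 : (∑ i ∈ range N, bt w i) = Ct w N := by
    funext ω
    unfold Ct
    rw [Finset.sum_apply]
  have h3 := variance_eq_integral (μ := unif w) (X := Ct w N) (Ct_meas w N).aemeasurable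
  rw [Ct_mean] at h3
  rw [← h3, ← h2, h1]
  unfold Ex
  refine sum_le_sum fun i _ => ?_
  refine (variance_le_expectation_sq (bt_meas w i).aestronglyMeasurable).trans_eq ?_
  rw [← bt_mean]
  congr 1
  funext ω
  simp only [Pi.pow_apply]
  rcases bt_cases w i ω with h | h <;> rw [h] <;> norm_num

/-- almost surely there are few places -/
theorem as_count (hs : Summable (fun j : ℕ => 1 / Ex w (2 ^ j))) (hpos : ∀ᶠ j : ℕ in atTop, 0 < Ex w (2 ^ j)) :
    ∀ᵐ ω ∂(unif w), ∀ᶠ N : ℕ in atTop, Ct w N ω ≤ 2 * Ex w (2 * N) := by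
  have h1 := ae_tendsto_zero (μ := unif w) (fun j ω => ((Ct w (2 ^ j) ω - Ex w (2 ^ j)) / Ex w (2 ^ j)) ^ 2)
    (fun j => (((Ct_meas w (2 ^ j)).sub_const _).div_const _).pow_const _)
    (fun j ω => by positivity)
    (fun j => by
      have hb : ∀ ω, |Ct w (2 ^ j) ω| ≤ ((2 ^ j : ℕ) : ℝ) := fun ω => by
        rw [abs_of_nonneg (Ct_nonneg w _ ω)]
        exact Ct_le w _ ω
      refine Integrable.mono' (integrable_const
        (((((2 ^ j : ℕ) : ℝ) + |Ex w (2 ^ j)|) / |Ex w (2 ^ j)|) ^ 2)) ?_ (ae_of_all _ fun ω => ?_)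
      · exact ((((Ct_meas w (2 ^ j)).sub_const _).div_const _).pow_const _).aestronglyMeasurable
      · rw [Real.norm_eq_abs, abs_pow, abs_div]
        have h2 : |Ct w (2 ^ j) ω - Ex w (2 ^ j)| ≤ ((2 ^ j : ℕ) : ℝ) + |Ex w (2 ^ j)| :=
          (abs_sub _ _).trans (add_le_add (hb ω) le_rfl)
        gcongr)
    (fun j => 1 / Ex w (2 ^ j))
    (by
      filter_upwards [hpos] with j hj
      have h2 := Ct_var w (2 ^ j)
      have h3 : ∀ ω, ((Ct w (2 ^ j) ω - Ex w (2 ^ j)) / Ex w (2 ^ j)) ^ 2 =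
          (Ct w (2 ^ j) ω - Ex w (2 ^ j)) ^ 2 * (1 / Ex w (2 ^ j) ^ 2) := fun ω => by
        rw [div_pow]
        ring
      simp only [h3]
      rw [integral_mul_const]
      calc (∫ ω, (Ct w (2 ^ j) ω - Ex w (2 ^ j)) ^ 2 ∂(unif w)) * (1 / Ex w (2 ^ j) ^ 2) ≤
          Ex w (2 ^ j) * (1 / Ex w (2 ^ j) ^ 2) := by gcongr
        _ = 1 / Ex w (2 ^ j) := by field_simp) hs
  filter_upwards [h1] with ω hω
  obtain ⟨J, hJ⟩ := eventually_atTop.1 ((hω.eventually_lt_const (show (0 : ℝ) < 1 by norm_num)).and hpos)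
  filter_upwards [eventually_ge_atTop (2 ^ J)] with N hN
  have hN0 : N ≠ 0 := by
    have : 0 < 2 ^ J := by positivity
    omega
  set j := Nat.log 2 N with hj
  have hj1 : 2 ^ j ≤ N := Nat.pow_log_le_self 2 hN0
  have hj2 : N < 2 ^ (j + 1) := Nat.lt_pow_succ_log_self (by norm_num) N
  have hjJ : J ≤ j + 1 := by
    have : J ≤ j := Nat.le_log_of_pow_le (by norm_num) hN
    omega
  obtain ⟨h2, h3⟩ := hJ (j + 1) hjJ
  have h4 : Ct w (2 ^ (j + 1)) ω ≤ 2 * Ex w (2 ^ (j + 1)) := by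
    have h5 := abs_lt_of_sq_lt_sq (by simpa using h2) (by norm_num : (0 : ℝ) ≤ 1)
    have h6 := (abs_lt.1 h5).2
    rw [div_lt_one h3] at h6
    linarith
  calc Ct w N ω ≤ Ct w (2 ^ (j + 1)) ω := Ct_mono w ω hj2.le
    _ ≤ 2 * Ex w (2 ^ (j + 1)) := h4
    _ ≤ 2 * Ex w (2 * N) := by
        apply mul_le_mul_of_nonneg_left _ (by norm_num)
        apply Ex_mono
        rw [pow_succ]
        omega

end

end Pool.Agent.H607.Sp
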