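import Pool.Agent.H607.Sp.Plan
import Mathlib

/-!
# The digits of the sparse numbers, and their rational approximations
-/

set_option autoImplicit false

namespace Pool.Agent.H607.Sp

open Finset Filter Topology MeasureTheory
open Pool.Agent.H607 Pool.Agent.H607.Mix

variable (p : SPar)

lemma len_small (hκ : Tendsto p.κ atTop atTop) {ε : ℝ} (hε : 0 < ε) :
    ∀ᶠ j in atTop, (len p j : ℝ) + 2 ≤ ε * en p j := by
  have h1 : Tendsto (fun j => p.κ (pl p j)) atTop atTop := hκ.comp (pl_mono p).tendsto_atTop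
  filter_upwards [h1.eventually_ge_atTop ⌈3 / ε⌉₊, eventually_ge_atTop ⌈4 / ε⌉₊] with j hj1 hj2
  have h2 : 3 / ε ≤ p.κ (pl p j) := (Nat.le_ceil _).trans (by exact_mod_cast hj1)
  have h3 : 4 / ε ≤ en p j := by
    have h4 := en_add_le p 0 j
    rw [zero_add] at h4
    have h5 : j ≤ en p j := by omega
    exact (Nat.le_ceil _).trans (by exact_mod_cast hj2.trans h5)
  rw [div_le_iff₀ hε] at h2 h3
  have h4 : len p j * p.κ (pl p j) ≤ pl p j := Nat.div_mul_le_self _ _
  have h4' : (len p j : ℝ) * p.κ (pl p j) ≤ pl p j := by exact_mod_cast h4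
  have h5 := en_add p j
  have h5' : (en p j : ℝ) + len p j = pl p j := by exact_mod_cast h5
  have h6 : 3 * (len p j : ℝ) ≤ pl p j := by exact_mod_cast len_le p j
  have h7 : (0 : ℝ) ≤ len p j := Nat.cast_nonneg _
  have h8 : (len p j : ℝ) * 3 ≤ (len p j : ℝ) * (p.κ (pl p j) * ε) := mul_le_mul_of_nonneg_left h2 h7
  have h9 : (len p j : ℝ) * (p.κ (pl p j) * ε) ≤ pl p j * ε := by
    rw [← mul_assoc]
    exact mul_le_mul_of_nonneg_right h4' hε.le
  have h10 : (pl p j : ℝ) * ε ≤ 3 / 2 * en p j * ε := by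
    apply mul_le_mul_of_nonneg_right _ hε.le
    linarith
  nlinarith

lemma exists_index (J n : ℕ) (h : pl p J ≤ n) : ∃ j, J ≤ j ∧ pl p j ≤ n ∧ n < pl p (j + 1) := by
  classical
  have hex : ∃ i, n < pl p i := ⟨n + 1, by
    have := (pl_mono p).id_le (n + 1)
    simp only [id] at this
    omega⟩
  set i := Nat.find hex with hi
  have h1 : n < pl p i := Nat.find_spec hex
  have hJi : J < i := by
    by_contra hle
    push Not at hle
    have h2 : pl p i ≤ pl p J := (pl_mono p).monotone hle
    omega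
  refine ⟨i - 1, by omega, ?_, ?_⟩
  · exact not_lt.1 (Nat.find_min hex (m := i - 1) (by omega))
  · rw [Nat.sub_add_cancel (by omega)]
    exact h1

/-- sets of places which are contained in the blocks have density zero -/
theorem sparse (hκ : Tendsto p.κ atTop atTop) (Z : ℕ → Prop) [DecidablePred Z] (J : ℕ)
    (hZ : ∀ j, J ≤ j → ∀ n, pl p j ≤ n → n + 3 ≤ en p (j + 1) → ¬ Z n) :
    Tendsto (fun N : ℕ => (((range N).filter Z).card : ℝ) / N) atTop (𝓝 0) := by
  have key : ∀ ε : ℝ, 0 < ε → ∃ C : ℝ, ∀ᶠ N : ℕ in atTop,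
      (((range N).filter Z).card : ℝ) ≤ C + 2 * ε * (N + 2) := by
    intro ε hε
    obtain ⟨I₀, hI₀⟩ := eventually_atTop.1 (len_small p hκ hε)
    set I := max I₀ J with hI
    have hmain : ∀ i, (((range (pl p (I + i))).filter Z).card : ℝ) ≤
        pl p I + 2 * ε * en p (I + i) := by
      intro i
      induction i with
      | zero =>
        have h1 : ((range (pl p (I + 0))).filter Z).card ≤ pl p I := by
          refine (card_filter_le _ _).trans ?_
          rw [card_range]
          rfl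
        have h2 : (((range (pl p (I + 0))).filter Z).card : ℝ) ≤ pl p I := by exact_mod_cast h1
        have h3 : 0 ≤ 2 * ε * en p (I + 0) := by positivity
        linarith
      | succ i ih =>
        have h1 : (range (pl p (I + i + 1))).filter Z ⊆ (range (pl p (I + i))).filter Z ∪
            Ico (en p (I + i + 1) - 2) (pl p (I + i + 1)) := by
          intro n hn
          rw [mem_filter, mem_range] at hn
          rw [mem_union, mem_filter, mem_range, mem_Ico]
          rcases lt_or_ge n (pl p (I + i)) with h | h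
          · exact Or.inl ⟨h, hn.2⟩
          · refine Or.inr ⟨?_, hn.1⟩
            by_contra hlt
            have hJ : J ≤ I + i := (le_max_right I₀ J).trans (Nat.le_add_right _ _)
            exact hZ (I + i) hJ n h (by omega) hn.2
        have h2 := (card_le_card h1).trans (card_union_le _ _)
        rw [Nat.card_Ico] at h2
        have h3 := en_add p (I + i + 1)
        have h4 : ((range (pl p (I + i + 1))).filter Z).card ≤
            ((range (pl p (I + i))).filter Z).card + (len p (I + i + 1) + 2) := by omega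
        have h5 : (((range (pl p (I + i + 1))).filter Z).card : ℝ) ≤
            ((range (pl p (I + i))).filter Z).card + (len p (I + i + 1) + 2) := by exact_mod_cast h4
        have h6 := hI₀ (I + i + 1) (by have := le_max_left I₀ J; omega)
        have h7 := en_two p (I + i)
        have h7' : 2 * (en p (I + i) : ℝ) ≤ en p (I + i + 1) := by exact_mod_cast h7
        have h8 : ε * (2 * (en p (I + i) : ℝ)) ≤ ε * en p (I + i + 1) :=
          mul_le_mul_of_nonneg_left h7' hε.le
        rw [← add_assoc]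
        linarith
    refine ⟨pl p I, ?_⟩
    filter_upwards [eventually_ge_atTop (pl p I)] with N hN
    obtain ⟨j, hj, h1, h2⟩ := exists_index p I N hN
    obtain ⟨i, rfl⟩ := Nat.exists_eq_add_of_le hj
    rcases lt_or_ge (N + 2) (en p (I + i + 1)) with h | h
    · have h3 : (range N).filter Z ⊆ (range (pl p (I + i))).filter Z := by
        intro n hn
        rw [mem_filter, mem_range] at hn ⊢
        refine ⟨?_, hn.2⟩
        by_contra hge
        push Not at hge
        have hJ : J ≤ I + i := (le_max_right I₀ J).trans (Nat.le_add_right _ _)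
        exact hZ (I + i) hJ n hge (by omega) hn.2
      have h4 : (((range N).filter Z).card : ℝ) ≤ ((range (pl p (I + i))).filter Z).card := by
        exact_mod_cast card_le_card h3
      have h5 := hmain i
      have h6 : en p (I + i) ≤ N := by
        have := en_add p (I + i)
        omega
      have h6' : (en p (I + i) : ℝ) ≤ N := by exact_mod_cast h6
      have h7 : ε * (en p (I + i) : ℝ) ≤ ε * N := mul_le_mul_of_nonneg_left h6' hε.le
      nlinarith
    · have h3 : (range N).filter Z ⊆ (range (pl p (I + (i + 1)))).filter Z := by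
        apply filter_subset_filter
        exact range_subset_range.2 (by rw [← add_assoc]; exact h2.le)
      have h4 : (((range N).filter Z).card : ℝ) ≤ ((range (pl p (I + (i + 1)))).filter Z).card := by
        exact_mod_cast card_le_card h3
      have h5 := hmain (i + 1)
      have h6' : (en p (I + i + 1) : ℝ) ≤ N + 2 := by exact_mod_cast h
      have h7 : ε * (en p (I + i + 1) : ℝ) ≤ ε * (N + 2) := mul_le_mul_of_nonneg_left h6' hε.le
      rw [← add_assoc] at h5 h4
      linarith
  rw [Metric.tendsto_atTop]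
  intro δ hδ
  obtain ⟨C, hC⟩ := key (δ / 8) (by positivity)
  obtain ⟨N₀, hN₀⟩ := eventually_atTop.1 hC
  obtain ⟨N₁, hN₁⟩ := exists_nat_gt (2 * (|C| + δ) / δ)
  refine ⟨max (max N₀ N₁) 1, fun N hN => ?_⟩
  have hN1 : 1 ≤ N := (le_max_right _ _).trans hN
  have hN2 : N₀ ≤ N := ((le_max_left _ _).trans (le_max_left _ _)).trans hN
  have hN3 : N₁ ≤ N := ((le_max_right _ _).trans (le_max_left _ _)).trans hN
  have hN0 : (0 : ℝ) < N := by exact_mod_cast hN1
  rw [Real.dist_eq, sub_zero, abs_of_nonneg (by positivity), div_lt_iff₀ hN0]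
  have h1 := hN₀ N hN2
  have h2 : 2 * (|C| + δ) / δ < N := hN₁.trans_le (by exact_mod_cast hN3)
  rw [div_lt_iff₀ hδ] at h2
  have h3 := le_abs_self C
  nlinarith

section digits

variable (u : ℤ) (s : ℕ) (ω : ∀ i, Fin (ws p i))

/-- the partial sums are rational numbers with small denominators -/
lemma partial_int (j : ℕ) (hs : s ≤ pl p j) :
    ∃ v : ℤ, (u : ℝ) / (p.g : ℝ) ^ s + ∑ i ∈ range (j + 1), tm p ω i = v / (p.g : ℝ) ^ pl p j := by
  have hg := g_pos p
  refine ⟨u * (p.g : ℤ) ^ (pl p j - s) +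
    ∑ i ∈ range (j + 1), (1 + ((ω i : ℕ) : ℤ)) * (p.g : ℤ) ^ (pl p j - pl p i), ?_⟩
  rw [eq_div_iff (by positivity), add_mul, sum_mul]
  push_cast
  congr 1
  · rw [← Nat.sub_add_cancel hs, pow_add, Nat.add_sub_cancel]
    field_simp
  · refine sum_congr rfl fun i hi => ?_
    have h1 : pl p i ≤ pl p j := (pl_mono p).monotone (by rw [mem_range] at hi; omega)
    unfold tm dg
    conv_lhs => rw [← Nat.sub_add_cancel h1, pow_add]
    field_simp

lemma yy_split (y₀ : ℝ) (j : ℕ) : yy p y₀ ω = (y₀ + ∑ i ∈ range (j + 1), tm p ω i) +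
    ∑' i, tm p ω (i + (j + 1)) := by
  unfold yy
  rw [← (tm_summable p ω).sum_add_tsum_nat_add (j + 1)]
  ring

theorem digit_zero (J : ℕ) (hs : s ≤ pl p J) (j : ℕ) (hj : J ≤ j) (n : ℕ) (h1 : pl p j ≤ n)
    (h2 : n + 3 ≤ en p (j + 1)) :
    ⌊yy p ((u : ℝ) / (p.g : ℝ) ^ s) ω * (p.g : ℝ) ^ (n + 1)⌋ % (p.g : ℤ) = 0 := by
  have hg := g_pos p
  have hg2 : (2 : ℝ) ≤ p.g := by exact_mod_cast p.hg
  obtain ⟨v, hv⟩ := partial_int p u s ω j (hs.trans ((pl_mono p).monotone hj))
  have ht := tail_le p ω (j + 1)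
  have ht0 := tail_pos p ω (j + 1)
  have h3 : yy p ((u : ℝ) / (p.g : ℝ) ^ s) ω * (p.g : ℝ) ^ (n + 1) =
      ((v * (p.g : ℤ) ^ (n - pl p j) * p.g : ℤ) : ℝ) +
        (∑' i, tm p ω (i + (j + 1))) * (p.g : ℝ) ^ (n + 1) := by
    rw [yy_split p ω _ j, hv, add_mul]
    congr 1
    have h4 : n + 1 = pl p j + (n - pl p j) + 1 := by omega
    rw [h4, pow_succ, pow_add]
    push_cast
    field_simp
  have h4 : (∑' i, tm p ω (i + (j + 1))) * (p.g : ℝ) ^ (n + 1) < 1 := by
    calc (∑' i, tm p ω (i + (j + 1))) * (p.g : ℝ) ^ (n + 1) ≤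
        2 / (p.g : ℝ) ^ en p (j + 1) * (p.g : ℝ) ^ (n + 1) := by gcongr
      _ ≤ 2 / (p.g : ℝ) ^ (n + 3) * (p.g : ℝ) ^ (n + 1) := by
          gcongr
          linarith
      _ = 2 / (p.g : ℝ) ^ 2 := by
          rw [show n + 3 = (n + 1) + 2 by ring, pow_add]
          field_simp
      _ < 1 := by
          rw [div_lt_one (by positivity)]
          nlinarith
  rw [h3, Int.floor_intCast_add]
  have h5 : ⌊(∑' i, tm p ω (i + (j + 1))) * (p.g : ℝ) ^ (n + 1)⌋ = 0 := by
    rw [Int.floor_eq_zero_iff]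
    exact ⟨by positivity, h4⟩
  rw [h5, add_zero, Int.mul_emod_left]

theorem liou (hκ : Tendsto p.κ atTop atTop) : Liouville (yy p ((u : ℝ) / (p.g : ℝ) ^ s) ω) := by
  have hg := g_pos p
  have hg2 : (2 : ℝ) ≤ p.g := by exact_mod_cast p.hg
  intro n
  have h1 : Tendsto (fun j => p.κ (pl p j)) atTop atTop := hκ.comp (pl_mono p).tendsto_atTop
  obtain ⟨j, hj1, hj2⟩ := ((h1.eventually_ge_atTop (3 * n + 3)).and
    ((pl_mono p).tendsto_atTop.eventually_ge_atTop s)).exists
  obtain ⟨v, hv⟩ := partial_int p u s ω j hj2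
  have ht := tail_le p ω (j + 1)
  have ht0 := tail_pos p ω (j + 1)
  have hpl := pl_pos p j
  have h2 : yy p ((u : ℝ) / (p.g : ℝ) ^ s) ω - (v : ℝ) / (((p.g : ℤ) ^ pl p j : ℤ) : ℝ) =
      ∑' i, tm p ω (i + (j + 1)) := by
    rw [yy_split p ω _ j, hv]
    push_cast
    ring
  refine ⟨v, (p.g : ℤ) ^ pl p j, ?_, ?_, ?_⟩
  · have h3 : 1 < p.g ^ pl p j := Nat.one_lt_pow (by omega) (by have := p.hg; omega)
    exact_mod_cast h3
  · intro h
    rw [h, sub_self] at h2
    linarith
  · rw [h2, abs_of_pos ht0]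
    refine ht.trans_lt ?_
    have h3 : n * pl p j + 2 ≤ en p (j + 1) := by
      have h4 := en_add p (j + 1)
      have h5 := len_le p (j + 1)
      have h6 : pl p (j + 1) = p.κ (pl p j) * pl p j := rfl
      have h7 : (3 * n + 3) * pl p j ≤ pl p (j + 1) := by
        rw [h6]
        exact Nat.mul_le_mul_right _ hj1
      have h8 : (3 * n + 3) * pl p j = 3 * (n * pl p j) + 3 * pl p j := by ring
      have h9 : 0 ≤ n * pl p j := Nat.zero_le _
      omega
    push_cast
    rw [← pow_mul, div_lt_div_iff₀ (by positivity) (by positivity), one_mul]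
    calc 2 * (p.g : ℝ) ^ (pl p j * n) ≤ p.g * (p.g : ℝ) ^ (pl p j * n) := by gcongr
      _ = (p.g : ℝ) ^ (pl p j * n + 1) := by rw [pow_succ]; ring
      _ < (p.g : ℝ) ^ (n * pl p j + 2) := by
          apply pow_lt_pow_right₀ (by linarith)
          rw [mul_comm]
          omega
      _ ≤ (p.g : ℝ) ^ en p (j + 1) := pow_le_pow_right₀ (by linarith) h3

end digits

end Pool.Agent.H607.Sp
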