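import Pool.Agent.H607.Mix.Dio
import Mathlib

/-!
# The numbers `x (β ^ n' - β ^ n) / g ^ a` are not very close to integers
-/

set_option autoImplicit false

namespace Pool.Agent.H607.Sp

open Finset Filter Topology
open Pool.Agent.V11270.Sub (sub_inf)
open Pool.Agent.H607.Mix (not_inf inf_ge)

lemma ge_of_pow {g p q : ℕ} {a m : ℕ} (hq : 1 ≤ q) (h : (g : ℝ) ^ a ≤ ((p : ℝ) / q) ^ m) :
    (g : ℝ) ^ a * (q : ℝ) ^ m ≤ (p : ℝ) ^ m := by
  have hq0 : (0 : ℝ) < q := by exact_mod_cast hq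
  rw [div_pow, le_div_iff₀ (by positivity)] at h
  exact h

/-- two terms -/
theorem two {g p q : ℕ} (hg : 2 ≤ g) (hq : 1 ≤ q) (hpq : q < p) {x : ℝ} (hx : IsAlgebraic ℚ x)
    (hirr : Irrational x) {ε : ℝ} (hε : 0 < ε) :
    ∃ M : ℕ, ∀ m : ℕ, M ≤ m → ∀ a : ℕ, (g : ℝ) ^ a ≤ ((p : ℝ) / q) ^ m → ∀ z : ℤ,
      Real.exp (-(ε * m)) ≤ |x * ((p : ℝ) / q) ^ m / (g : ℝ) ^ a - z| := by
  by_contra hcon
  push Not at hcon
  have hq0 : (0 : ℝ) < q := by exact_mod_cast hq
  have hq1 : (1 : ℝ) ≤ q := by exact_mod_cast hq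
  have hp1 : (1 : ℝ) < p := by exact_mod_cast (by omega : 1 < p)
  have hp0 : (0 : ℝ) < p := by linarith
  have hg0 : (0 : ℝ) < g := by exact_mod_cast (by omega : 0 < g)
  have hg1 : (1 : ℝ) ≤ g := by exact_mod_cast (by omega : 1 ≤ g)
  have hlg : 0 ≤ Real.log g := Real.log_nonneg hg1
  have hlq : 0 ≤ Real.log q := Real.log_nonneg hq1
  have hlp : 0 < Real.log p := Real.log_pos hp1
  set S : Set ℕ := {m : ℕ | ∃ a : ℕ, (g : ℝ) ^ a ≤ ((p : ℝ) / q) ^ m ∧ ∃ z : ℤ,
    |x * ((p : ℝ) / q) ^ m / (g : ℝ) ^ a - z| < Real.exp (-(ε * m))} with hSdef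
  have hS : S.Infinite := by
    rw [Set.infinite_iff_exists_gt]
    intro M
    obtain ⟨m, hm, a, ha, z, hz⟩ := hcon (M + 1)
    exact ⟨m, ⟨a, ha, z, hz⟩, by omega⟩
  choose! a ha z hz using fun (m : ℕ) (hm : m ∈ S) => hm
  have hga : ∀ m ∈ S, (g : ℝ) ^ a m * (q : ℝ) ^ m ≤ (p : ℝ) ^ m := fun m hm => ge_of_pow hq (ha m hm)
  have hlog : ∀ m ∈ S, a m * Real.log g + m * Real.log q ≤ m * Real.log p := by
    intro m hm
    have h1 := Real.log_le_log (by positivity) (hga m hm)
    rw [Real.log_mul (by positivity) (by positivity), Real.log_pow, Real.log_pow, Real.log_pow] at h1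
    exact h1
  -- the small linear form
  have hform : ∀ m ∈ S, |x * (p : ℝ) ^ m - z m * ((g : ℝ) ^ a m * (q : ℝ) ^ m)| ≤
      (g : ℝ) ^ a m * (q : ℝ) ^ m * Real.exp (-(ε * m)) := by
    intro m hm
    have h1 := (hz m hm).le
    have h2 : x * (p : ℝ) ^ m - z m * ((g : ℝ) ^ a m * (q : ℝ) ^ m) =
        ((g : ℝ) ^ a m * (q : ℝ) ^ m) * (x * ((p : ℝ) / q) ^ m / (g : ℝ) ^ a m - z m) := by
      rw [div_pow]
      field_simp
    rw [h2, abs_mul, abs_of_pos (by positivity)]
    exact mul_le_mul_of_nonneg_left h1 (by positivity)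
  obtain ⟨y, hy, hyinf⟩ := sub_inf (n := 2) (by norm_num) (!![1, 0; x, -1] : Matrix (Fin 2) (Fin 2) ℝ)
    (by
      intro i j
      fin_cases i <;> fin_cases j
      · simpa using isAlgebraic_one
      · simpa using isAlgebraic_zero
      · simpa using hx
      · simpa using isAlgebraic_one.neg)
    (by simp [Matrix.det_fin_two]) (ι := Fin 2) (![![(p : ℤ), q], ![1, (g : ℤ)]])
    (by
      intro v l
      fin_cases v <;> fin_cases l <;> simp <;> omega)
    (fun m => ![m, a m]) (3 * Real.log p + ε) ε hε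
    (fun m => ![(p : ℝ) ^ m, (g : ℝ) ^ a m * (q : ℝ) ^ m * Real.exp (-(ε * m))])
    (fun m => ![(p : ℤ) ^ m, z m * ((g : ℤ) ^ a m * (q : ℤ) ^ m)]) S hS
    (by
      intro m hm h0
      have h1 := congrFun h0 0
      simp only [Matrix.cons_val_zero, Pi.zero_apply] at h1
      have : (p : ℤ) ≠ 0 := by exact_mod_cast (by omega : p ≠ 0)
      exact pow_ne_zero _ this h1)
    (by
      intro m hm l
      fin_cases l
      · simp [Fin.prod_univ_two]
      · simp only [Fin.prod_univ_two, Matrix.cons_val_zero, Matrix.cons_val_one, Fin.mk_one]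
        exact ⟨z m, by ring⟩)
    (by
      intro m hm l
      fin_cases l
      · simp [Fin.sum_univ_two]
      · simp only [Fin.sum_univ_two, Matrix.of_apply, Matrix.cons_val', Matrix.cons_val_zero,
          Matrix.cons_val_one, Matrix.cons_val_fin_one, Fin.mk_one, Fin.isValue]
        have e1 : x * (((p : ℤ) ^ m : ℤ) : ℝ) + -1 * ((z m * ((g : ℤ) ^ a m * (q : ℤ) ^ m) : ℤ) : ℝ) =
            x * (p : ℝ) ^ m - z m * ((g : ℝ) ^ a m * (q : ℝ) ^ m) := by
          push_cast
          ring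
        rw [e1]
        exact hform m hm)
    (by
      intro m hm l
      fin_cases l
      · simp only [Fin.zero_eta, Matrix.cons_val_zero]
        positivity
      · simp only [Fin.mk_one, Matrix.cons_val_one, Matrix.cons_val_fin_one]
        positivity)
    (by
      intro m hm l
      have h5 : (0 : ℝ) ≤ m := Nat.cast_nonneg m
      have h6 := hlog m hm
      have h7 : (0 : ℝ) ≤ a m * Real.log g := mul_nonneg (Nat.cast_nonneg _) hlg
      have h8 : (0 : ℝ) ≤ m * Real.log q := mul_nonneg h5 hlq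
      have h9 : (0 : ℝ) ≤ m * Real.log p := mul_nonneg h5 hlp.le
      have h10 : (0 : ℝ) ≤ ε * m := mul_nonneg hε.le h5
      fin_cases l
      · simp only [Fin.zero_eta, Matrix.cons_val_zero]
        rw [Real.log_pow, abs_of_nonneg (by positivity)]
        linarith
      · simp only [Fin.mk_one, Matrix.cons_val_one, Matrix.cons_val_fin_one]
        rw [Real.log_mul (by positivity) (Real.exp_pos _).ne', Real.log_exp,
          Real.log_mul (by positivity) (by positivity), Real.log_pow, Real.log_pow, abs_le]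
        constructor <;> linarith)
    (by
      intro m hm
      have h5 : (0 : ℝ) ≤ m := Nat.cast_nonneg m
      have h6 := hlog m hm
      have h9 : (0 : ℝ) ≤ m * Real.log p := mul_nonneg h5 hlp.le
      have h10 : (0 : ℝ) ≤ ε * m := mul_nonneg hε.le h5
      simp only [Fin.prod_univ_two, Matrix.cons_val_zero, Matrix.cons_val_one,
        Int.cast_one, one_pow, mul_one, Int.cast_natCast]
      rw [abs_of_pos (by positivity), Real.log_mul (by positivity) (by positivity),
        Real.log_mul (by positivity) (by positivity), Real.log_pow, Real.log_pow, Real.log_pow]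
      linarith)
    (by
      intro m hm
      simp only [Fin.prod_univ_two, Matrix.cons_val_zero, Matrix.cons_val_one,
        Int.cast_one, one_pow, mul_one, Int.cast_natCast, Fin.sum_univ_two]
      have e1 : Real.log ((g : ℝ) ^ a m * (q : ℝ) ^ m * Real.exp (-(ε * m))) =
          a m * Real.log g + m * Real.log q - ε * m := by
        rw [Real.log_mul (by positivity) (Real.exp_pos _).ne', Real.log_exp,
          Real.log_mul (by positivity) (by positivity), Real.log_pow, Real.log_pow]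
        ring
      rw [abs_of_pos (by positivity), e1, Real.log_mul (by positivity) (by positivity),
        Real.log_mul (by positivity) (by positivity), Real.log_pow, Real.log_pow, Real.log_pow]
      apply le_of_eq
      ring)
  simp only [Fin.sum_univ_two, Matrix.cons_val_zero, Matrix.cons_val_one] at hyinf
  have hy1 : y 1 ≠ 0 := by
    intro h1
    obtain ⟨m, hm, hm2⟩ := hyinf.nonempty
    rw [h1, zero_mul, add_zero] at hm2
    have : (p : ℤ) ≠ 0 := by exact_mod_cast (by omega : p ≠ 0)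
    have h0 := (mul_eq_zero.1 hm2).resolve_right (pow_ne_zero _ this)
    apply hy
    ext i
    fin_cases i
    · exact h0
    · exact h1
  have hy1R : (y 1 : ℝ) ≠ 0 := by exact_mod_cast hy1
  have hne : 0 < |x + (y 0 : ℝ) / y 1| := by
    apply abs_pos.2
    intro h
    apply hirr
    refine ⟨-((y 0 : ℚ) / y 1), ?_⟩
    push_cast
    linarith
  refine not_inf (b := Real.exp ε) (by rw [Real.one_lt_exp_iff]; exact hε) hne hyinf (C := 1) ?_
  rintro m ⟨hm, hm2⟩
  have h1 := hform m hm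
  have h2 : (y 0 : ℝ) * (p : ℝ) ^ m + y 1 * (z m * ((g : ℝ) ^ a m * (q : ℝ) ^ m)) = 0 := by
    exact_mod_cast hm2
  have h3 : x * (p : ℝ) ^ m - z m * ((g : ℝ) ^ a m * (q : ℝ) ^ m) =
      (p : ℝ) ^ m * (x + (y 0 : ℝ) / y 1) := by
    have : (z m : ℝ) * ((g : ℝ) ^ a m * (q : ℝ) ^ m) = - ((y 0 : ℝ) / y 1) * (p : ℝ) ^ m := by
      field_simp
      linarith
    rw [this]
    ring
  rw [h3, abs_mul, abs_of_pos (by positivity)] at h1
  have h4 := hga m hm
  have h5 : (p : ℝ) ^ m * |x + (y 0 : ℝ) / y 1| ≤ (p : ℝ) ^ m * Real.exp (-(ε * m)) :=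
    h1.trans (mul_le_mul_of_nonneg_right h4 (Real.exp_pos _).le)
  have h6 : |x + (y 0 : ℝ) / y 1| ≤ Real.exp (-(ε * m)) := le_of_mul_le_mul_left h5 (by positivity)
  rw [← Real.exp_nat_mul]
  calc Real.exp (m * ε) * |x + (y 0 : ℝ) / y 1| ≤ Real.exp (m * ε) * Real.exp (-(ε * m)) := by gcongr
    _ = 1 := by
      rw [← Real.exp_add]
      rw [show (m : ℝ) * ε + -(ε * m) = 0 by ring, Real.exp_zero]

lemma dist_pos {x : ℝ} (hirr : Irrational x) (r s c : ℚ) (hc0 : 0 < c) (hc1 : c < 1) :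
    ∃ t : ℝ, 0 < t ∧ ∀ d : ℕ, 1 ≤ d → t ≤ |(x + r) - (x - s) * (c : ℝ) ^ d| := by
  have hne : ∀ d : ℕ, 1 ≤ d → (x + r) - (x - s) * (c : ℝ) ^ d ≠ 0 := by
    intro d hd h
    have h1 : (1 : ℝ) - (c : ℝ) ^ d ≠ 0 := by
      have : (c : ℝ) ^ d < 1 := pow_lt_one₀ (by exact_mod_cast hc0.le) (by exact_mod_cast hc1) (by omega)
      linarith
    apply hirr
    refine ⟨(-r - s * c ^ d) / (1 - c ^ d), ?_⟩
    push_cast
    rw [div_eq_iff h1]
    linarith
  have hα : 0 < |x + r| := by
    apply abs_pos.2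
    intro h
    apply hirr
    exact ⟨-r, by push_cast; linarith⟩
  have hlim : Tendsto (fun d : ℕ => |(x + r) - (x - s) * (c : ℝ) ^ d|) atTop (𝓝 |(x + r) - (x - s) * 0|) := by
    refine (Tendsto.const_sub _ (Tendsto.const_mul _ ?_)).abs
    exact tendsto_pow_atTop_nhds_zero_of_lt_one (by exact_mod_cast hc0.le) (by exact_mod_cast hc1)
  rw [mul_zero, sub_zero] at hlim
  obtain ⟨D₀, hD₀⟩ := eventually_atTop.1 (hlim.eventually_const_le (show |x + r| / 2 < |x + r| by linarith))
  have hfin : (Finset.Icc 1 (D₀ + 1)).Nonempty := ⟨1, by rw [Finset.mem_Icc]; omega⟩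
  obtain ⟨D₁, hD₁, hmin⟩ := Finset.exists_min_image (Finset.Icc 1 (D₀ + 1))
    (fun d : ℕ => |(x + r) - (x - s) * (c : ℝ) ^ d|) hfin
  rw [Finset.mem_Icc] at hD₁
  refine ⟨min (|x + r| / 2) |(x + r) - (x - s) * (c : ℝ) ^ D₁|,
    lt_min (by linarith) (abs_pos.2 (hne D₁ hD₁.1)), ?_⟩
  intro d hd
  rcases le_or_gt d (D₀ + 1) with h | h
  · exact (min_le_right _ _).trans (hmin d (by rw [Finset.mem_Icc]; exact ⟨hd, h⟩))
  · exact (min_le_left _ _).trans (hD₀ d (by omega))

/-- three terms -/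
theorem sep {g p q : ℕ} (hg : 2 ≤ g) (hq : 1 ≤ q) (hpq : q < p) {x : ℝ} (hx : IsAlgebraic ℚ x)
    (hirr : Irrational x) {ε : ℝ} (hε : 0 < ε) :
    ∃ M : ℕ, ∀ m : ℕ, M ≤ m → ∀ n < m, ∀ a : ℕ, (g : ℝ) ^ a ≤ ((p : ℝ) / q) ^ m → ∀ z : ℤ,
      Real.exp (-(ε * m)) ≤ |x * (((p : ℝ) / q) ^ m - ((p : ℝ) / q) ^ n) / (g : ℝ) ^ a - z| := by
  by_contra hcon
  push Not at hcon
  have hq0 : (0 : ℝ) < q := by exact_mod_cast hq
  have hq1 : (1 : ℝ) ≤ q := by exact_mod_cast hq
  have hp1 : (1 : ℝ) < p := by exact_mod_cast (by omega : 1 < p)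
  have hp0 : (0 : ℝ) < p := by linarith
  have hqp : (q : ℝ) < p := by exact_mod_cast hpq
  have hg0 : (0 : ℝ) < g := by exact_mod_cast (by omega : 0 < g)
  have hg1 : (1 : ℝ) ≤ g := by exact_mod_cast (by omega : 1 ≤ g)
  have hlg : 0 ≤ Real.log g := Real.log_nonneg hg1
  have hlq : 0 ≤ Real.log q := Real.log_nonneg hq1
  have hlp : 0 < Real.log p := Real.log_pos hp1
  have hlqp : Real.log q ≤ Real.log p := Real.log_le_log hq0 hqp.le
  set S : Set ℕ := {m : ℕ | ∃ n < m, ∃ a : ℕ, (g : ℝ) ^ a ≤ ((p : ℝ) / q) ^ m ∧ ∃ z : ℤ,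
    |x * (((p : ℝ) / q) ^ m - ((p : ℝ) / q) ^ n) / (g : ℝ) ^ a - z| < Real.exp (-(ε * m))} with hSdef
  have hS : S.Infinite := by
    rw [Set.infinite_iff_exists_gt]
    intro M
    obtain ⟨m, hm, n, hn, a, ha, z, hz⟩ := hcon (M + 1)
    exact ⟨m, ⟨n, hn, a, ha, z, hz⟩, by omega⟩
  choose! n hn a ha z hz using fun (m : ℕ) (hm : m ∈ S) => hm
  have hga : ∀ m ∈ S, (g : ℝ) ^ a m * (q : ℝ) ^ m ≤ (p : ℝ) ^ m := fun m hm => ge_of_pow hq (ha m hm)
  have hlog : ∀ m ∈ S, a m * Real.log g + m * Real.log q ≤ m * Real.log p := by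
    intro m hm
    have h1 := Real.log_le_log (by positivity) (hga m hm)
    rw [Real.log_mul (by positivity) (by positivity), Real.log_pow, Real.log_pow, Real.log_pow] at h1
    exact h1
  have hqm : ∀ m ∈ S, (q : ℝ) ^ m = (q : ℝ) ^ n m * (q : ℝ) ^ (m - n m) := by
    intro m hm
    rw [← pow_add]
    congr 1
    have := hn m hm
    omega
  have hpm : ∀ m ∈ S, (p : ℝ) ^ m = (p : ℝ) ^ n m * (p : ℝ) ^ (m - n m) := by
    intro m hm
    rw [← pow_add]
    congr 1
    have := hn m hm
    omega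
  -- the small linear form
  have hform : ∀ m ∈ S, |x * (p : ℝ) ^ m - x * ((p : ℝ) ^ n m * (q : ℝ) ^ (m - n m)) -
      z m * ((g : ℝ) ^ a m * (q : ℝ) ^ m)| ≤ (g : ℝ) ^ a m * (q : ℝ) ^ m * Real.exp (-(ε * m)) := by
    intro m hm
    have h1 := (hz m hm).le
    have h2 : x * (p : ℝ) ^ m - x * ((p : ℝ) ^ n m * (q : ℝ) ^ (m - n m)) -
        z m * ((g : ℝ) ^ a m * (q : ℝ) ^ m) =
        ((g : ℝ) ^ a m * (q : ℝ) ^ m) *
          (x * (((p : ℝ) / q) ^ m - ((p : ℝ) / q) ^ n m) / (g : ℝ) ^ a m - z m) := by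
      have h3 : (q : ℝ) ^ m * ((p : ℝ) / q) ^ m = (p : ℝ) ^ m := by
        rw [div_pow]
        field_simp
      have h4 : (q : ℝ) ^ m * ((p : ℝ) / q) ^ n m = (p : ℝ) ^ n m * (q : ℝ) ^ (m - n m) := by
        rw [hqm m hm, div_pow]
        field_simp
      have h5 : ((g : ℝ) ^ a m * (q : ℝ) ^ m) *
          (x * (((p : ℝ) / q) ^ m - ((p : ℝ) / q) ^ n m) / (g : ℝ) ^ a m - z m) =
          x * ((q : ℝ) ^ m * ((p : ℝ) / q) ^ m) - x * ((q : ℝ) ^ m * ((p : ℝ) / q) ^ n m) -
          z m * ((g : ℝ) ^ a m * (q : ℝ) ^ m) := by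
        field_simp
      rw [h5, h3, h4]
    rw [h2, abs_mul, abs_of_pos (by positivity)]
    exact mul_le_mul_of_nonneg_left h1 (by positivity)
  obtain ⟨y, hy, hyinf⟩ := sub_inf (n := 3) (by norm_num)
    (!![1, 0, 0; 0, 1, 0; x, -x, -1] : Matrix (Fin 3) (Fin 3) ℝ)
    (by
      intro i j
      fin_cases i <;> fin_cases j
      · simpa using isAlgebraic_one
      · simpa using isAlgebraic_zero
      · simpa using isAlgebraic_zero
      · simpa using isAlgebraic_zero
      · simpa using isAlgebraic_one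
      · simpa using isAlgebraic_zero
      · simpa using hx
      · simpa using hx.neg
      · simpa using isAlgebraic_one.neg)
    (by simp [Matrix.det_fin_three]) (ι := Fin 4)
    (![![(p : ℤ), 1, q], ![1, (p : ℤ), 1], ![1, (q : ℤ), 1], ![1, 1, (g : ℤ)]])
    (by
      intro v l
      fin_cases v <;> fin_cases l <;> simp <;> omega)
    (fun m => ![m, n m, m - n m, a m]) (4 * Real.log p + ε) ε hε
    (fun m => ![(p : ℝ) ^ m, (p : ℝ) ^ n m * (q : ℝ) ^ (m - n m),
      (g : ℝ) ^ a m * (q : ℝ) ^ m * Real.exp (-(ε * m))])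
    (fun m => ![(p : ℤ) ^ m, (p : ℤ) ^ n m * (q : ℤ) ^ (m - n m),
      z m * ((g : ℤ) ^ a m * (q : ℤ) ^ m)]) S hS
    (by
      intro m hm h0
      have h1 := congrFun h0 0
      simp only [Matrix.cons_val_zero, Pi.zero_apply] at h1
      have : (p : ℤ) ≠ 0 := by exact_mod_cast (by omega : p ≠ 0)
      exact pow_ne_zero _ this h1)
    (by
      intro m hm l
      fin_cases l
      · simp [Fin.prod_univ_four]
      · simp [Fin.prod_univ_four]
      · simp only [Fin.prod_univ_four, Matrix.cons_val_zero, Matrix.cons_val_one, Matrix.cons_val,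
          Fin.reduceFinMk]
        exact ⟨z m, by ring⟩)
    (by
      intro m hm l
      fin_cases l
      · simp [Fin.sum_univ_three]
      · simp [Fin.sum_univ_three]
      · simp only [Fin.sum_univ_three, Matrix.of_apply, Matrix.cons_val', Matrix.cons_val_zero,
          Matrix.cons_val_fin_one, Matrix.cons_val_one, Matrix.cons_val, Fin.reduceFinMk]
        have e1 : x * (((p : ℤ) ^ m : ℤ) : ℝ) + -x * (((p : ℤ) ^ n m * (q : ℤ) ^ (m - n m) : ℤ) : ℝ) +
            -1 * ((z m * ((g : ℤ) ^ a m * (q : ℤ) ^ m) : ℤ) : ℝ) =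
            x * (p : ℝ) ^ m - x * ((p : ℝ) ^ n m * (q : ℝ) ^ (m - n m)) -
              z m * ((g : ℝ) ^ a m * (q : ℝ) ^ m) := by
          push_cast
          ring
        rw [e1]
        exact hform m hm)
    (by
      intro m hm l
      fin_cases l
      · simp only [Fin.zero_eta, Matrix.cons_val_zero]
        positivity
      · simp only [Fin.mk_one, Matrix.cons_val_one, Matrix.cons_val_zero]
        positivity
      · simp only [Fin.reduceFinMk, Matrix.cons_val]
        positivity)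
    (by
      intro m hm l
      have h5 : (0 : ℝ) ≤ m := Nat.cast_nonneg m
      have h6 := hlog m hm
      have h7 : (0 : ℝ) ≤ a m * Real.log g := mul_nonneg (Nat.cast_nonneg _) hlg
      have h8 : (0 : ℝ) ≤ m * Real.log q := mul_nonneg h5 hlq
      have h9 : (0 : ℝ) ≤ m * Real.log p := mul_nonneg h5 hlp.le
      have h10 : (0 : ℝ) ≤ ε * m := mul_nonneg hε.le h5
      have h11 : ((n m : ℕ) : ℝ) + ((m - n m : ℕ) : ℝ) = m := by
        have := hn m hm
        exact_mod_cast (by omega : n m + (m - n m) = m)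
      have h12 : (0 : ℝ) ≤ (n m : ℝ) * Real.log p := mul_nonneg (Nat.cast_nonneg _) hlp.le
      have h13 : (0 : ℝ) ≤ ((m - n m : ℕ) : ℝ) * Real.log q := mul_nonneg (Nat.cast_nonneg _) hlq
      have h14 : ((m - n m : ℕ) : ℝ) * Real.log q ≤ ((m - n m : ℕ) : ℝ) * Real.log p :=
        mul_le_mul_of_nonneg_left hlqp (Nat.cast_nonneg _)
      have h15 : (n m : ℝ) * Real.log p + ((m - n m : ℕ) : ℝ) * Real.log p = m * Real.log p := by
        rw [← add_mul, h11]
      fin_cases l
      · simp only [Fin.zero_eta, Matrix.cons_val_zero]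
        rw [Real.log_pow, abs_of_nonneg (by positivity)]
        linarith
      · simp only [Fin.mk_one, Matrix.cons_val_one, Matrix.cons_val_zero]
        rw [Real.log_mul (by positivity) (by positivity), Real.log_pow, Real.log_pow,
          abs_of_nonneg (by positivity)]
        linarith
      · simp only [Fin.reduceFinMk, Matrix.cons_val]
        rw [Real.log_mul (by positivity) (Real.exp_pos _).ne', Real.log_exp,
          Real.log_mul (by positivity) (by positivity), Real.log_pow, Real.log_pow, abs_le]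
        constructor <;> linarith)
    (by
      intro m hm
      have h5 : (0 : ℝ) ≤ m := Nat.cast_nonneg m
      have h6 := hlog m hm
      have h9 : (0 : ℝ) ≤ m * Real.log p := mul_nonneg h5 hlp.le
      have h10 : (0 : ℝ) ≤ ε * m := mul_nonneg hε.le h5
      have h11 : ((n m : ℕ) : ℝ) + ((m - n m : ℕ) : ℝ) = m := by
        have := hn m hm
        exact_mod_cast (by omega : n m + (m - n m) = m)
      have h14 : ((m - n m : ℕ) : ℝ) * Real.log q ≤ ((m - n m : ℕ) : ℝ) * Real.log p :=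
        mul_le_mul_of_nonneg_left hlqp (Nat.cast_nonneg _)
      have h15 : (n m : ℝ) * Real.log p + ((m - n m : ℕ) : ℝ) * Real.log p = m * Real.log p := by
        rw [← add_mul, h11]
      simp only [Fin.prod_univ_three, Fin.prod_univ_four, Matrix.cons_val_zero, Matrix.cons_val_one,
        Matrix.cons_val, Int.cast_one, one_pow, mul_one, one_mul, Int.cast_natCast]
      rw [abs_of_pos (by positivity), Real.log_mul (by positivity) (by positivity),
        Real.log_mul (by positivity) (by positivity), Real.log_mul (by positivity) (by positivity),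
        Real.log_mul (by positivity) (by positivity), Real.log_pow, Real.log_pow, Real.log_pow,
        Real.log_pow, Real.log_pow]
      linarith)
    (by
      intro m hm
      simp only [Fin.prod_univ_three, Fin.prod_univ_four, Matrix.cons_val_zero, Matrix.cons_val_one,
        Matrix.cons_val, Int.cast_one, one_pow, mul_one, one_mul, Int.cast_natCast, Fin.sum_univ_three]
      have e1 : Real.log ((g : ℝ) ^ a m * (q : ℝ) ^ m * Real.exp (-(ε * m))) =
          a m * Real.log g + m * Real.log q - ε * m := by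
        rw [Real.log_mul (by positivity) (Real.exp_pos _).ne', Real.log_exp,
          Real.log_mul (by positivity) (by positivity), Real.log_pow, Real.log_pow]
        ring
      have e2 : Real.log ((p : ℝ) ^ n m * (q : ℝ) ^ (m - n m)) =
          n m * Real.log p + ((m - n m : ℕ) : ℝ) * Real.log q := by
        rw [Real.log_mul (by positivity) (by positivity), Real.log_pow, Real.log_pow]
      have e3 : Real.log ((p : ℝ) ^ m * ((p : ℝ) ^ n m * (q : ℝ) ^ (m - n m)) *
          ((q : ℝ) ^ m * (g : ℝ) ^ a m)) = m * Real.log p + (n m * Real.log p +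
            ((m - n m : ℕ) : ℝ) * Real.log q) + (m * Real.log q + a m * Real.log g) := by
        rw [Real.log_mul (by positivity) (by positivity),
          Real.log_mul (by positivity) (by positivity), e2,
          Real.log_mul (x := (q : ℝ) ^ m) (by positivity) (by positivity),
          Real.log_pow, Real.log_pow, Real.log_pow]
      rw [abs_of_pos (by positivity), e1, e2, e3, Real.log_pow]
      apply le_of_eq
      ring)
  simp only [Fin.sum_univ_three, Matrix.cons_val_zero, Matrix.cons_val_one, Matrix.cons_val] at hyinf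
  have hrel : ∀ m, m ∈ S → y 0 * (p : ℤ) ^ m + y 1 * ((p : ℤ) ^ n m * (q : ℤ) ^ (m - n m)) +
      y 2 * (z m * ((g : ℤ) ^ a m * (q : ℤ) ^ m)) = 0 →
      (y 0 : ℝ) * (p : ℝ) ^ m + y 1 * ((p : ℝ) ^ n m * (q : ℝ) ^ (m - n m)) +
      y 2 * (z m * ((g : ℝ) ^ a m * (q : ℝ) ^ m)) = 0 := by
    intro m _ h
    exact_mod_cast h
  by_cases hy2 : y 2 = 0
  · -- the difference of the exponents is constant
    have hrat : ∀ m, m ∈ S → y 0 * (p : ℤ) ^ m + y 1 * ((p : ℤ) ^ n m * (q : ℤ) ^ (m - n m)) +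
        y 2 * (z m * ((g : ℤ) ^ a m * (q : ℤ) ^ m)) = 0 →
        (y 0 : ℝ) * ((p : ℝ) / q) ^ (m - n m) = - y 1 := by
      intro m hm h
      have h1 := hrel m hm h
      rw [hy2, Int.cast_zero, zero_mul, add_zero, hpm m hm] at h1
      have h2 : (p : ℝ) ^ n m * ((y 0 : ℝ) * (p : ℝ) ^ (m - n m) + y 1 * (q : ℝ) ^ (m - n m)) = 0 := by
        linear_combination h1
      have h3 := (mul_eq_zero.1 h2).resolve_left (by positivity)
      rw [div_pow, mul_div_assoc', div_eq_iff (by positivity)]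
      linarith
    have hy0 : (y 0 : ℝ) ≠ 0 := by
      intro h0
      obtain ⟨m, hm, hm2⟩ := hyinf.nonempty
      have h1 := hrat m hm hm2
      rw [h0, zero_mul] at h1
      apply hy
      ext i
      fin_cases i
      · exact_mod_cast h0
      · have : (y 1 : ℝ) = 0 := by linarith
        exact_mod_cast this
      · exact hy2
    obtain ⟨m₀, hm₀, hm₀2⟩ := hyinf.nonempty
    set d := m₀ - n m₀ with hd
    have hd1 : 1 ≤ d := by
      have := hn m₀ hm₀
      omega
    have hβ : (1 : ℝ) < (p : ℝ) / q := by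
      rw [one_lt_div hq0]
      exact hqp
    have hconst : ∀ m, m ∈ S → y 0 * (p : ℤ) ^ m + y 1 * ((p : ℤ) ^ n m * (q : ℤ) ^ (m - n m)) +
        y 2 * (z m * ((g : ℤ) ^ a m * (q : ℤ) ^ m)) = 0 → m - n m = d := by
      intro m hm h
      have h1 := hrat m hm h
      have h2 := hrat m₀ hm₀ hm₀2
      have h3 : ((p : ℝ) / q) ^ (m - n m) = ((p : ℝ) / q) ^ d := by
        rw [← h2] at h1
        exact mul_left_cancel₀ hy0 h1
      exact pow_right_injective₀ (by linarith) hβ.ne' h3
    -- the algebraic number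
    set c : ℚ := 1 - ((q : ℚ) / p) ^ d with hc
    have hc0 : c ≠ 0 := by
      have : ((q : ℚ) / p) ^ d < 1 := by
        apply pow_lt_one₀ (by positivity) _ (by omega)
        rw [div_lt_one (by exact_mod_cast (by omega : 0 < p))]
        exact_mod_cast hpq
      rw [hc]
      linarith
    have hx' : IsAlgebraic ℚ (x * c) := hx.mul (isAlgebraic_algebraMap c)
    have hirr' : Irrational (x * c) := hirr.mul_ratCast hc0
    obtain ⟨M, hM⟩ := two hg hq hpq hx' hirr' hε
    obtain ⟨m, ⟨⟨hm, hm2⟩, hmM⟩⟩ := (inf_ge hyinf M).nonempty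
    have h1 := hM m hmM (a m) (ha m hm) (z m)
    have h2 := hz m hm
    have h3 := hconst m hm hm2
    have h4 : n m + d = m := by
      have := hn m hm
      omega
    have h5 : x * (((p : ℝ) / q) ^ m - ((p : ℝ) / q) ^ n m) = x * c * ((p : ℝ) / q) ^ m := by
      rw [hc]
      have h6 : ((p : ℝ) / q) ^ m = ((p : ℝ) / q) ^ n m * ((p : ℝ) / q) ^ d := by
        rw [← pow_add, h4]
      rw [h6]
      push_cast
      rw [div_pow, div_pow, div_pow]
      field_simp
    rw [h5] at h2
    linarith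
  · have hy2R : (y 2 : ℝ) ≠ 0 := by exact_mod_cast hy2
    have hc1 : (q : ℚ) / p < 1 := by
      rw [div_lt_one (by exact_mod_cast (by omega : 0 < p))]
      exact_mod_cast hpq
    have hc0 : (0 : ℚ) < (q : ℚ) / p := by
      have h1 : (0 : ℚ) < q := by exact_mod_cast hq
      have h2 : (0 : ℚ) < p := by exact_mod_cast (by omega : 0 < p)
      positivity
    obtain ⟨t, ht, htd⟩ := dist_pos hirr ((y 0 : ℚ) / y 2) ((y 1 : ℚ) / y 2) ((q : ℚ) / p) hc0 hc1
    refine not_inf (b := Real.exp ε) (by rw [Real.one_lt_exp_iff]; exact hε) ht hyinf (C := 1) ?_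
    rintro m ⟨hm, hm2⟩
    have h1 := hform m hm
    have h2 := hrel m hm hm2
    have h3 : x * (p : ℝ) ^ m - x * ((p : ℝ) ^ n m * (q : ℝ) ^ (m - n m)) -
        z m * ((g : ℝ) ^ a m * (q : ℝ) ^ m) =
        (p : ℝ) ^ m * ((x + ((y 0 : ℚ) / y 2 : ℚ)) -
          (x - ((y 1 : ℚ) / y 2 : ℚ)) * (((q : ℚ) / p : ℚ) : ℝ) ^ (m - n m)) := by
      have h4 : (z m : ℝ) * ((g : ℝ) ^ a m * (q : ℝ) ^ m) = - ((y 0 : ℝ) / y 2) * (p : ℝ) ^ m -
          ((y 1 : ℝ) / y 2) * ((p : ℝ) ^ n m * (q : ℝ) ^ (m - n m)) := by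
        field_simp
        linarith
      have h5 : (p : ℝ) ^ m * (((q : ℚ) / p : ℚ) : ℝ) ^ (m - n m) =
          (p : ℝ) ^ n m * (q : ℝ) ^ (m - n m) := by
        rw [hpm m hm]
        push_cast
        rw [div_pow]
        field_simp
      rw [h4]
      push_cast at h5 ⊢
      linear_combination (x - (y 1 : ℝ) / y 2) * h5
    rw [h3, abs_mul, abs_of_pos (by positivity)] at h1
    have h4 := hga m hm
    have h5 := h1.trans (mul_le_mul_of_nonneg_right h4 (Real.exp_pos _).le)
    have h6 := le_of_mul_le_mul_left h5 (by positivity)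
    have h7 := htd (m - n m) (by have := hn m hm; omega)
    rw [← Real.exp_nat_mul]
    calc Real.exp (m * ε) * t ≤ Real.exp (m * ε) * Real.exp (-(ε * m)) := by
          gcongr
          exact h7.trans h6
      _ = 1 := by
        rw [← Real.exp_add]
        rw [show (m : ℝ) * ε + -(ε * m) = 0 by ring, Real.exp_zero]

end Pool.Agent.H607.Sp
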