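import Pool.Agent.H607.Mix.Gen
import Mathlib

/-!
# Almost sure convergence from the correlations of distant terms
-/

set_option autoImplicit false

namespace Pool.Agent.H607.Sp

open Finset Filter Topology MeasureTheory
open Pool.Agent.W206.ND (ee)
open Pool.Agent.H607 Pool.Agent.H607.Mix

section

variable {Ω : Type*} [MeasurableSpace Ω] {μ : Measure Ω} [IsProbabilityMeasure μ]

lemma second_pairs (u : ℕ → Ω → ℝ) (hu : ∀ n, Measurable (u n)) (N : ℕ) :
    ∫ ω, ‖SS (fun n => u n ω) N‖ ^ 2 ∂μ ≤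
      ∑ n ∈ range N, ∑ n' ∈ range N, ‖∫ ω, ee (u n' ω - u n ω) ∂μ‖ := by
  have hm : ∀ n n', Measurable (fun ω => ee (u n' ω - u n ω)) := fun n n' =>
    ee_continuous.measurable.comp ((hu n').sub (hu n))
  have hi : ∀ n n', Integrable (fun ω => ee (u n' ω - u n ω)) μ := fun n n' =>
    Integrable.mono' (integrable_const (1 : ℝ)) (hm n n').aestronglyMeasurable
      (ae_of_all _ fun ω => by rw [ee_norm])
  have h1 : ∀ ω, ((‖SS (fun n => u n ω) N‖ ^ 2 : ℝ) : ℂ) =
      ∑ n ∈ range N, ∑ n' ∈ range N, ee (u n' ω - u n ω) := by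
    intro ω
    rw [Complex.ofReal_pow, ← Complex.mul_conj']
    unfold SS
    rw [map_sum, sum_mul_sum, sum_comm]
    refine sum_congr rfl fun n _ => sum_congr rfl fun n' _ => ?_
    rw [ee_conj, ← ee_add]
    congr 1
  have h2 : ((∫ ω, ‖SS (fun n => u n ω) N‖ ^ 2 ∂μ : ℝ) : ℂ) =
      ∑ n ∈ range N, ∑ n' ∈ range N, ∫ ω, ee (u n' ω - u n ω) ∂μ := by
    rw [← integral_complex_ofReal]
    simp only [h1]
    rw [integral_finsetSum _ fun n _ => integrable_finsetSum _ fun n' _ => hi n n']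
    refine sum_congr rfl fun n _ => ?_
    rw [integral_finsetSum _ fun n' _ => hi n n']
  have h3 : ∫ ω, ‖SS (fun n => u n ω) N‖ ^ 2 ∂μ =
      ‖((∫ ω, ‖SS (fun n => u n ω) N‖ ^ 2 ∂μ : ℝ) : ℂ)‖ := by
    rw [Complex.norm_real, Real.norm_of_nonneg]
    exact integral_nonneg fun ω => by positivity
  rw [h3, h2]
  exact (norm_sum_le _ _).trans (sum_le_sum fun n _ => norm_sum_le _ _)

lemma card_near (N n : ℕ) (R : ℝ) (hR : 0 ≤ R) :
    (((range N).filter fun n' : ℕ => |(n' : ℝ) - n| < R).card : ℝ) ≤ 2 * R + 1 := by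
  have h1 : (range N).filter (fun n' : ℕ => |(n' : ℝ) - n| < R) ⊆ Icc (n - ⌊R⌋₊) (n + ⌊R⌋₊) := by
    intro n' hn'
    rw [mem_filter, abs_lt] at hn'
    rw [mem_Icc]
    obtain ⟨_, h1, h2⟩ := hn'
    have h3 : n' ≤ n + ⌊R⌋₊ := by
      rcases le_or_gt n' n with h | h
      · omega
      · have h4 : ((n' - n : ℕ) : ℝ) < R := by
          rw [Nat.cast_sub h.le]
          linarith
        have := Nat.le_floor h4.le
        omega
    have h4 : n ≤ n' + ⌊R⌋₊ := by
      rcases le_or_gt n n' with h | h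
      · omega
      · have h4 : ((n - n' : ℕ) : ℝ) < R := by
          rw [Nat.cast_sub h.le]
          linarith
        have := Nat.le_floor h4.le
        omega
    omega
  have h2 := card_le_card h1
  rw [Nat.card_Icc] at h2
  have h3 : ((range N).filter fun n' : ℕ => |(n' : ℝ) - n| < R).card ≤ 2 * ⌊R⌋₊ + 1 := by omega
  have h4 : (((range N).filter fun n' : ℕ => |(n' : ℝ) - n| < R).card : ℝ) ≤ 2 * ⌊R⌋₊ + 1 := by
    exact_mod_cast h3
  have h5 := Nat.floor_le hR
  linarith

/-- almost sure convergence from the correlations of distant terms -/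
theorem as_far (u : ℕ → Ω → ℝ) (hu : ∀ n, Measurable (u n))
    (h : ∀ᶠ N : ℕ in atTop, ∀ n' < N, ∀ n < n', (N : ℝ) / (Real.log N) ^ 2 ≤ (n' : ℝ) - n →
      ‖∫ ω, ee (u n' ω - u n ω) ∂μ‖ ≤ 1 / (Real.log N) ^ 2) :
    ∀ᵐ ω ∂μ, Tendsto (fun N : ℕ => SS (fun n => u n ω) N / (N : ℂ)) atTop (𝓝 0) := by
  have hnorm : ∀ n n', ‖∫ ω, ee (u n' ω - u n ω) ∂μ‖ ≤ 1 := fun n n' => by
    refine (norm_integral_le_of_norm_le_const (ae_of_all _ fun ω => (ee_norm _).le)).trans ?_
    simp
  have hsymm : ∀ n n', ‖∫ ω, ee (u n' ω - u n ω) ∂μ‖ = ‖∫ ω, ee (u n ω - u n' ω) ∂μ‖ := by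
    intro n n'
    have h1 : ∀ ω, ee (u n' ω - u n ω) = (starRingEnd ℂ) (ee (u n ω - u n' ω)) := by
      intro ω
      rw [ee_conj]
      congr 1
      ring
    simp only [h1]
    rw [integral_conj, RCLike.norm_conj]
  refine as_gen u hu 4 ?_
  have hlog : ∀ᶠ N : ℕ in atTop, (Real.log N) ^ 2 ≤ N := by
    have h2 := (Real.isLittleO_pow_log_id_atTop (n := 2)).def (show (0 : ℝ) < 1 by norm_num)
    filter_upwards [tendsto_natCast_atTop_atTop.eventually h2] with N hN
    rw [Real.norm_eq_abs, Real.norm_eq_abs, one_mul, id, Nat.abs_cast] at hN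
    exact (le_abs_self _).trans hN
  filter_upwards [h, hlog, eventually_ge_atTop 3] with N hN hlogN hN3
  have hN0 : (0 : ℝ) < N := by exact_mod_cast (by omega : 0 < N)
  have hN3' : (3 : ℝ) ≤ N := by exact_mod_cast hN3
  have hl0 : 0 < Real.log N := Real.log_pos (by linarith)
  have hl2 : 0 < (Real.log N) ^ 2 := by positivity
  set R := (N : ℝ) / (Real.log N) ^ 2 with hR
  have hR0 : 0 ≤ R := by positivity
  have hR1 : 1 ≤ R := by
    rw [hR, one_le_div hl2]
    exact hlogN
  refine (second_pairs u hu N).trans ?_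
  have h1 : ∀ n ∈ range N, ∑ n' ∈ range N, ‖∫ ω, ee (u n' ω - u n ω) ∂μ‖ ≤ (2 * R + 1) + R := by
    intro n hn
    rw [mem_range] at hn
    have h2 : ∀ n' ∈ range N, ‖∫ ω, ee (u n' ω - u n ω) ∂μ‖ ≤
        (if |(n' : ℝ) - n| < R then 1 else 0) + 1 / (Real.log N) ^ 2 := by
      intro n' hn'
      rw [mem_range] at hn'
      have h0 : 0 ≤ 1 / (Real.log N) ^ 2 := by positivity
      by_cases hc : |(n' : ℝ) - n| < R
      · rw [if_pos hc]
        linarith [hnorm n n']
      · rw [if_neg hc, zero_add]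
        push Not at hc
        rcases lt_trichotomy n n' with hlt | heq | hgt
        · refine hN n' hn' n hlt ?_
          have : (n : ℝ) ≤ n' := by exact_mod_cast hlt.le
          rwa [abs_of_nonneg (by linarith)] at hc
        · subst heq
          rw [sub_self, abs_zero] at hc
          linarith
        · rw [hsymm]
          refine hN n hn n' hgt ?_
          have : (n' : ℝ) ≤ n := by exact_mod_cast hgt.le
          rw [abs_of_nonpos (by linarith)] at hc
          linarith
    refine (sum_le_sum h2).trans ?_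
    rw [sum_add_distrib, ← sum_filter, sum_const, sum_const, card_range, nsmul_eq_mul, nsmul_eq_mul,
      mul_one]
    have h3 := card_near N n R hR0
    have h4 : (N : ℝ) * (1 / (Real.log N) ^ 2) = R := by rw [hR]; ring
    linarith
  refine (sum_le_sum h1).trans ?_
  rw [sum_const, card_range, nsmul_eq_mul]
  have h5 : 4 * ((N : ℝ) ^ 2 / (Real.log N) ^ 2) = N * (4 * R) := by rw [hR]; ring
  rw [h5]
  apply mul_le_mul_of_nonneg_left _ hN0.le
  linarith

end

end Pool.Agent.H607.Sp
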