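import Pool.Agent.H607.Sp.Dio
import Pool.Agent.H607.Mix.Gen
import Pool.Agent.H607.Mix.BL
import Pool.Agent.H607.UnifDigits
import Mathlib

/-!
# Sparse random numbers
-/

set_option autoImplicit false

namespace Pool.Agent.H607.Sp

open Finset Filter Topology MeasureTheory
open Pool.Agent.W206.ND (ee)
open Pool.Agent.H607 Pool.Agent.H607.Mix

/-- the place `a` is good for the pair `x`, `β`, with the ratio `K` -/
def Good (g : ℕ) (x β : ℝ) (K a : ℕ) : Prop :=
  ∀ n' : ℕ, (g : ℝ) ^ a ≤ β ^ n' → β ^ n' < (g : ℝ) ^ (K * a) → ∀ n < n', ∀ z : ℤ,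
    (n' : ℝ) ≤ 2 * (g : ℝ) ^ (a / K) * |x * (β ^ n' - β ^ n) / (g : ℝ) ^ a - z|

lemma good_ev {g p q : ℕ} (hg : 2 ≤ g) (hq : 1 ≤ q) (hpq : q < p) {x : ℝ} (hx : IsAlgebraic ℚ x)
    (hirr : Irrational x) (K : ℕ) (hK : 1 ≤ K) : ∀ᶠ a : ℕ in atTop, Good g x ((p : ℝ) / q) K a := by
  have hq0 : (0 : ℝ) < q := by exact_mod_cast hq
  have hg1 : (1 : ℝ) < g := by exact_mod_cast (by omega : 1 < g)
  have hg0 : (0 : ℝ) < g := by linarith
  set β : ℝ := (p : ℝ) / q with hβ
  have hβ1 : 1 < β := by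
    rw [hβ, one_lt_div hq0]
    exact_mod_cast hpq
  have hlg : 0 < Real.log g := Real.log_pos hg1
  have hlβ : 0 < Real.log β := Real.log_pos hβ1
  have hK0 : (0 : ℝ) < K := by exact_mod_cast hK
  set C : ℝ := K * Real.log g / Real.log β with hC
  have hC0 : 0 < C := by positivity
  set ε : ℝ := Real.log β / (2 * K ^ 2) with hε
  have hε0 : 0 < ε := by positivity
  obtain ⟨M, hM⟩ := sep hg hq hpq hx hirr hε0
  have hr : 1 < Real.exp (Real.log g / (2 * K)) := by
    rw [Real.one_lt_exp_iff]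
    positivity
  have h1 := (tendsto_pow_const_div_const_pow_of_one_lt 1 hr).eventually_le_const
    (show (0 : ℝ) < 2 / (C * g) by positivity)
  filter_upwards [h1, eventually_ge_atTop (⌈M * Real.log β / Real.log g⌉₊)] with a ha1 ha2
  intro n' hn1 hn2 n hn z
  -- the size of `n'`
  have hn1' : a * Real.log g ≤ n' * Real.log β := by
    have := Real.log_le_log (by positivity) hn1
    rwa [Real.log_pow, Real.log_pow] at this
  have hn2' : n' * Real.log β ≤ K * a * Real.log g := by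
    have := Real.log_le_log (by positivity) hn2.le
    rw [Real.log_pow, Real.log_pow] at this
    push_cast at this
    exact this
  have hn'M : M ≤ n' := by
    have h2 : M * Real.log β / Real.log g ≤ a := (Nat.le_ceil _).trans (by exact_mod_cast ha2)
    rw [div_le_iff₀ hlg] at h2
    have h3 : (M : ℝ) * Real.log β ≤ n' * Real.log β := h2.trans hn1'
    have h4 : (M : ℝ) ≤ n' := le_of_mul_le_mul_right h3 hlβ
    exact_mod_cast h4
  have hn'C : (n' : ℝ) ≤ C * a := by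
    rw [hC, div_mul_eq_mul_div, le_div_iff₀ hlβ]
    linarith
  have h2 := hM n' hn'M n hn a hn1 z
  set D := |x * (β ^ n' - β ^ n) / (g : ℝ) ^ a - z| with hD
  have h3 : Real.exp (-(a * (Real.log g / (2 * K)))) ≤ D := by
    refine le_trans ?_ h2
    apply Real.exp_le_exp.2
    have h4 : ε * n' ≤ ε * (C * a) := mul_le_mul_of_nonneg_left hn'C hε0.le
    have h5 : ε * (C * a) = a * (Real.log g / (2 * K)) := by
      rw [hε, hC]
      field_simp
    linarith
  have h4 : Real.exp (2 * (a * (Real.log g / (2 * K)))) / g ≤ (g : ℝ) ^ (a / K) := by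
    have h5 : (g : ℝ) ^ (a / K) = Real.exp (Real.log g * ((a / K : ℕ) : ℝ)) := by
      rw [← Real.rpow_def_of_pos hg0, Real.rpow_natCast]
    rw [h5, div_le_iff₀ hg0]
    conv_rhs => rw [show (g : ℝ) = Real.exp (Real.log g) from (Real.exp_log hg0).symm]
    rw [Real.log_exp, ← Real.exp_add]
    apply Real.exp_le_exp.2
    have h6 : (a : ℝ) / K ≤ ((a / K : ℕ) : ℝ) + 1 := by
      have := Nat.lt_div_mul_add (a := a) (b := K) (by omega)
      rw [div_le_iff₀ hK0]
      have h7 : (a : ℝ) < ((a / K : ℕ) : ℝ) * K + K := by exact_mod_cast this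
      linarith
    have h7 : 2 * (a * (Real.log g / (2 * K))) = Real.log g * (a / K) := by
      field_simp
    rw [h7]
    nlinarith
  have h5 : (n' : ℝ) ≤ 2 * (Real.exp (a * (Real.log g / (2 * K))) / g) := by
    rw [pow_one, ← Real.exp_nat_mul, div_le_div_iff₀ (Real.exp_pos _) (by positivity)] at ha1
    have h6 : C * a * g ≤ 2 * Real.exp (a * (Real.log g / (2 * K))) := by linarith
    rw [mul_div_assoc', le_div_iff₀ hg0]
    have h7 : (n' : ℝ) * g ≤ C * a * g := mul_le_mul_of_nonneg_right hn'C hg0.le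
    linarith
  calc (n' : ℝ) ≤ 2 * (Real.exp (a * (Real.log g / (2 * K))) / g) := h5
    _ = 2 * (Real.exp (2 * (a * (Real.log g / (2 * K)))) / g) *
        Real.exp (-(a * (Real.log g / (2 * K)))) := by
        rw [two_mul (a * (Real.log g / (2 * K))), Real.exp_add, Real.exp_neg]
        field_simp
    _ ≤ 2 * (g : ℝ) ^ (a / K) * D := by
        apply mul_le_mul _ h3 (Real.exp_pos _).le (by positivity)
        linarith

/-- the diagonal -/
lemma diag (R : ℕ → ℕ → Prop) (h : ∀ K, ∀ᶠ a in atTop, R K a) :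
    ∃ κ : ℕ → ℕ, Tendsto κ atTop atTop ∧ (∀ a, κ a ≤ a) ∧ ∀ᶠ a in atTop, R (κ a) a := by
  classical
  choose t ht using fun K => eventually_atTop.1 (h K)
  refine ⟨fun a => Nat.findGreatest (fun K => t K ≤ a) a, ?_, fun a => Nat.findGreatest_le _, ?_⟩
  · rw [tendsto_atTop_atTop]
    intro K
    refine ⟨max (t K) K, fun a ha => ?_⟩
    exact Nat.le_findGreatest ((le_max_right _ _).trans ha) ((le_max_left _ _).trans ha)
  · filter_upwards [eventually_ge_atTop (t 0)] with a ha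
    apply ht
    exact Nat.findGreatest_spec (P := fun K => t K ≤ a) (Nat.zero_le a) ha

/-- the parameters: the base `g`, the function `κ`, the first place -/
structure SPar where
  g : ℕ
  κ : ℕ → ℕ
  A : ℕ
  hg : 2 ≤ g
  hA : 1 ≤ A
  hκ : ∀ a, A ≤ a → 3 ≤ κ a ∧ κ a ≤ a

variable (p : SPar)

/-- the places -/
def pl : ℕ → ℕ
  | 0 => p.A
  | j + 1 => p.κ (pl j) * pl j

lemma pl_ge (j : ℕ) : p.A ≤ pl p j := by
  induction j with
  | zero => exact le_rfl
  | succ j ih =>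
    have h := (p.hκ _ ih).1
    unfold pl
    nlinarith

lemma pl_pos (j : ℕ) : 1 ≤ pl p j := p.hA.trans (pl_ge p j)

lemma pl_succ (j : ℕ) : pl p (j + 1) = p.κ (pl p j) * pl p j := rfl

lemma pl_three (j : ℕ) : 3 * pl p j ≤ pl p (j + 1) := by
  rw [pl_succ]
  exact Nat.mul_le_mul_right _ (p.hκ _ (pl_ge p j)).1

lemma pl_mono : StrictMono (pl p) := by
  apply strictMono_nat_of_lt_succ
  intro j
  have h1 := pl_three p j
  have h2 := pl_pos p j
  omega

/-- the lengths of the blocks -/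
def len (j : ℕ) : ℕ := pl p j / p.κ (pl p j)

lemma len_le (j : ℕ) : 3 * len p j ≤ pl p j := by
  unfold len
  have h1 := (p.hκ _ (pl_ge p j)).1
  have h2 := Nat.div_mul_le_self (pl p j) (p.κ (pl p j))
  nlinarith [Nat.zero_le (pl p j / p.κ (pl p j))]

/-- the ends of the blocks -/
def en (j : ℕ) : ℕ := pl p j - len p j

lemma en_add (j : ℕ) : en p j + len p j = pl p j := by
  have := len_le p j
  unfold en
  omega

lemma en_two (j : ℕ) : 2 * en p j ≤ en p (j + 1) := by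
  have h1 := en_add p j
  have h2 := en_add p (j + 1)
  have h3 := len_le p (j + 1)
  have h4 := pl_three p j
  omega

lemma en_pos (j : ℕ) : 1 ≤ en p j := by
  have h1 := en_add p j
  have h2 := len_le p j
  have h3 := pl_pos p j
  omega

lemma en_add_le (j i : ℕ) : en p j + i ≤ en p (j + i) := by
  induction i with
  | zero => simp
  | succ i ih =>
    have h1 := en_two p (j + i)
    have h2 := en_pos p (j + i)
    have h3 : en p (j + (i + 1)) = en p (j + i + 1) := rfl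
    omega

/-- the number of choices -/
def ws (j : ℕ) : ℕ := p.g ^ len p j

instance (j : ℕ) : NeZero (ws p j) := ⟨by
  unfold ws
  have := p.hg
  positivity⟩

/-- the terms -/
noncomputable def tm (ω : ∀ i, Fin (ws p i)) (j : ℕ) : ℝ := (1 + dg (ws p) j ω) / (p.g : ℝ) ^ pl p j

lemma g_pos : (0 : ℝ) < p.g := by
  have := p.hg
  exact_mod_cast (by omega : 0 < p.g)

lemma tm_pos (ω : ∀ i, Fin (ws p i)) (j : ℕ) : 0 < tm p ω j := by
  unfold tm dg
  have := g_pos p
  positivity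

lemma tm_le (ω : ∀ i, Fin (ws p i)) (j : ℕ) : tm p ω j ≤ 1 / (p.g : ℝ) ^ en p j := by
  have hg := g_pos p
  unfold tm dg
  rw [div_le_div_iff₀ (by positivity) (by positivity), one_mul, ← en_add p j, pow_add, mul_comm]
  apply mul_le_mul_of_nonneg_left _ (by positivity)
  have h1 := (ω j).2
  have h2 : 1 + (ω j : ℕ) ≤ p.g ^ len p j := by
    unfold ws at h1
    omega
  exact_mod_cast h2

lemma geo (j i : ℕ) : 1 / (p.g : ℝ) ^ en p (j + i) ≤ 1 / (p.g : ℝ) ^ en p j * (1 / 2) ^ i := by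
  have hg := g_pos p
  have hg2 : (2 : ℝ) ≤ p.g := by exact_mod_cast p.hg
  rw [one_div_pow, one_div_mul_one_div]
  apply one_div_le_one_div_of_le (by positivity)
  calc (p.g : ℝ) ^ en p j * 2 ^ i ≤ (p.g : ℝ) ^ en p j * (p.g : ℝ) ^ i := by gcongr
    _ = (p.g : ℝ) ^ (en p j + i) := (pow_add _ _ _).symm
    _ ≤ (p.g : ℝ) ^ en p (j + i) := pow_le_pow_right₀ (by linarith) (en_add_le p j i)

lemma tm_summable (ω : ∀ i, Fin (ws p i)) : Summable (tm p ω) := by
  refine Summable.of_nonneg_of_le (fun j => (tm_pos p ω j).le) (fun j => ?_)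
    ((summable_geometric_two).mul_left (1 / (p.g : ℝ) ^ en p 0))
  have := geo p 0 j
  rw [zero_add] at this
  exact (tm_le p ω j).trans this

lemma tail_le (ω : ∀ i, Fin (ws p i)) (j : ℕ) : ∑' i, tm p ω (i + j) ≤ 2 / (p.g : ℝ) ^ en p j := by
  have h1 : ∀ i, tm p ω (i + j) ≤ 1 / (p.g : ℝ) ^ en p j * (1 / 2) ^ i := fun i => by
    have := geo p j i
    rw [add_comm i j]
    exact (tm_le p ω (j + i)).trans this
  have h2 := Summable.tsum_le_tsum h1 ((summable_nat_add_iff j).2 (tm_summable p ω))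
    ((summable_geometric_two).mul_left (1 / (p.g : ℝ) ^ en p j))
  refine h2.trans_eq ?_
  rw [tsum_mul_left, tsum_geometric_two]
  ring

lemma tail_pos (ω : ∀ i, Fin (ws p i)) (j : ℕ) : 0 < ∑' i, tm p ω (i + j) :=
  ((summable_nat_add_iff j).2 (tm_summable p ω)).tsum_pos (fun i => (tm_pos p ω _).le) 0 (tm_pos p ω _)

/-- the random number -/
noncomputable def yy (y₀ : ℝ) (ω : ∀ i, Fin (ws p i)) : ℝ := y₀ + ∑' j, tm p ω j

lemma rs_summable : Summable (fun j => 1 / (p.g : ℝ) ^ pl p j) := by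
  refine Summable.of_nonneg_of_le (fun j => ?_) (fun j => ?_) (tm_summable p 0)
  · have := g_pos p
    positivity
  · unfold tm dg
    have := g_pos p
    gcongr
    linarith [(Nat.cast_nonneg _ : (0 : ℝ) ≤ ((0 : ∀ i, Fin (ws p i)) j : ℕ))]

lemma dg_summable (ω : ∀ i, Fin (ws p i)) :
    Summable (fun j => dg (ws p) j ω * (1 / (p.g : ℝ) ^ pl p j)) := by
  have h := (tm_summable p ω).sub (rs_summable p)
  refine h.congr fun j => ?_
  unfold tm
  ring

lemma yy_eq (y₀ : ℝ) (ω : ∀ i, Fin (ws p i)) :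
    yy p y₀ ω = (y₀ + ∑' j, 1 / (p.g : ℝ) ^ pl p j) + ∑' j, dg (ws p) j ω * (1 / (p.g : ℝ) ^ pl p j) := by
  unfold yy
  rw [add_assoc, ← (rs_summable p).tsum_add (dg_summable p ω)]
  congr 2
  funext j
  unfold tm
  ring

lemma yy_meas (y₀ : ℝ) : Measurable (yy p y₀) := by
  have h : yy p y₀ = fun ω => (y₀ + ∑' j, 1 / (p.g : ℝ) ^ pl p j) +
      ∑' j, dg (ws p) j ω * (1 / (p.g : ℝ) ^ pl p j) := funext fun ω => yy_eq p y₀ ω
  rw [h]
  exact (gen_meas (dg_meas (ws p)) (dg_summable p)).const_add _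

lemma dirich_le (m n' : ℕ) (hm : 0 < m) (hn : 0 < n') (θ : ℝ) (h : ∀ z : ℤ, (n' : ℝ) ≤ 2 * m * |θ - z|) :
    dirich m θ ≤ (1 / (n' : ℝ)) ^ 2 := by
  have hm0 : (0 : ℝ) < m := by exact_mod_cast hm
  have hn0 : (0 : ℝ) < n' := by exact_mod_cast hn
  have h1 : ∀ z : ℤ, (n' : ℝ) / (2 * m) ≤ |θ - z| := fun z => by
    rw [div_le_iff₀ (by positivity)]
    linarith [h z]
  have h2 := ee_sub_one_ge θ _ h1
  have h3 : ‖∑ a ∈ range m, ee (a * θ)‖ * ‖ee θ - 1‖ ≤ 2 := by
    rw [← norm_mul]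
    have h4 : (∑ a ∈ range m, ee (a * θ)) * (ee θ - 1) = ee θ ^ m - 1 := by
      rw [← geom_sum_mul]
      congr 1
      exact sum_congr rfl fun a _ => ee_nat_mul a θ
    rw [h4]
    calc ‖ee θ ^ m - 1‖ ≤ ‖ee θ ^ m‖ + ‖(1 : ℂ)‖ := norm_sub_le _ _
      _ = 2 := by rw [norm_pow, ee_norm, norm_one]; norm_num
  unfold dirich
  gcongr
  rw [norm_mul, norm_div, norm_one, Complex.norm_natCast, one_div_mul_eq_div, div_le_div_iff₀ hm0 hn0,
    one_mul]
  have h5 := norm_nonneg (∑ a ∈ range m, ee (a * θ))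
  have h6 : ‖∑ a ∈ range m, ee (a * θ)‖ * (4 * (n' / (2 * m))) ≤ 2 :=
    (mul_le_mul_of_nonneg_left h2 h5).trans h3
  set B := ‖∑ a ∈ range m, ee (a * θ)‖ with hB
  have h7 : B * (4 * (n' / (2 * m))) = 2 * (B * n') / m := by
    field_simp
    ring
  rw [h7, div_le_iff₀ hm0] at h6
  linarith

lemma exists_place {β : ℝ} (hβ : 1 < β) (J : ℕ) : ∀ᶠ n' : ℕ in atTop, ∃ j, J ≤ j ∧
    (p.g : ℝ) ^ pl p j ≤ β ^ n' ∧ β ^ n' < (p.g : ℝ) ^ pl p (j + 1) := by
  have hg := g_pos p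
  have hg1 : (1 : ℝ) < p.g := by exact_mod_cast (by have := p.hg; omega : 1 < p.g)
  filter_upwards [(tendsto_pow_atTop_atTop_of_one_lt hβ).eventually_ge_atTop ((p.g : ℝ) ^ pl p J)]
    with n' hn'
  have hex : ∃ i, β ^ n' < (p.g : ℝ) ^ pl p i := by
    have h1 : Tendsto (fun i => (p.g : ℝ) ^ pl p i) atTop atTop :=
      (tendsto_pow_atTop_atTop_of_one_lt hg1).comp (pl_mono p).tendsto_atTop
    exact (h1.eventually_gt_atTop (β ^ n')).exists
  classical
  set i := Nat.find hex with hi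
  have h1 := Nat.find_spec hex
  have hJi : J < i := by
    by_contra hle
    push Not at hle
    have h2 : (p.g : ℝ) ^ pl p i ≤ (p.g : ℝ) ^ pl p J :=
      pow_le_pow_right₀ hg1.le ((pl_mono p).monotone hle)
    linarith
  refine ⟨i - 1, by omega, ?_, ?_⟩
  · have h2 := Nat.find_min hex (m := i - 1) (by omega)
    exact not_lt.1 h2
  · rw [Nat.sub_add_cancel (by omega)]
    exact h1

/-- almost sure equidistribution for one pair -/
theorem as_pair (y₀ x γ β : ℝ) (hβ : 1 < β) (hgood : ∀ᶠ a in atTop, Good p.g x β (p.κ a) a) :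
    ∀ᵐ ω ∂(unif (ws p)), Tendsto (fun N : ℕ =>
      SS (fun n => (x * yy p y₀ ω + γ) * β ^ n) N / (N : ℂ)) atTop (𝓝 0) := by
  refine as_corr (fun n ω => (x * yy p y₀ ω + γ) * β ^ n) (fun n => ?_) ?_
  · exact (((yy_meas p y₀).const_mul x).add_const γ).mul_const _
  obtain ⟨A₁, hA₁⟩ := eventually_atTop.1 hgood
  obtain ⟨J, hJ⟩ : ∃ J, ∀ j, J ≤ j → A₁ ≤ pl p j := by
    refine ⟨A₁, fun j hj => hj.trans ((pl_mono p).id_le j)⟩
  filter_upwards [exists_place p hβ J, eventually_ge_atTop 1] with n' hn' hn1 n hn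
  obtain ⟨j, hj, h1, h2⟩ := hn'
  have hG := hA₁ _ (hJ j hj) n' h1 (by rwa [← pl_succ])  n hn
  have hn0 : (0 : ℝ) < n' := by exact_mod_cast hn1
  set T := x * (β ^ n' - β ^ n) with hT
  have e1 : ∀ ω, ee ((x * yy p y₀ ω + γ) * β ^ n' - (x * yy p y₀ ω + γ) * β ^ n) =
      ee (γ * (β ^ n' - β ^ n)) * ee (T * yy p y₀ ω) := by
    intro ω
    rw [← ee_add]
    congr 1
    rw [hT]
    ring
  simp only [e1]
  rw [integral_const_mul, norm_mul, ee_norm, one_mul]
  have h3 := ch_le_gen (dg_indep (ws p)) (dg_meas (ws p)) (dg_summable p)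
    (y₀ + ∑' j, 1 / (p.g : ℝ) ^ pl p j) {j} T
  rw [prod_singleton, dg_ch] at h3
  have h4 : dirich (ws p j) (T * (1 / (p.g : ℝ) ^ pl p j)) ≤ (1 / (n' : ℝ)) ^ 2 := by
    apply dirich_le _ _ (Nat.pos_of_ne_zero (NeZero.ne _)) (by omega)
    intro z
    have h5 := hG z
    unfold ws len
    push_cast
    rw [mul_one_div]
    exact h5
  have h5 : ch (unif (ws p)) (yy p y₀) T ^ 2 ≤ (1 / (n' : ℝ)) ^ 2 := by
    have h6 : yy p y₀ = fun ω => (y₀ + ∑' j, 1 / (p.g : ℝ) ^ pl p j) +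
      ∑' j, dg (ws p) j ω * (1 / (p.g : ℝ) ^ pl p j) := funext fun ω => yy_eq p y₀ ω
    rw [h6]
    exact h3.trans h4
  have h6 := abs_le_of_sq_le_sq h5 (by positivity)
  unfold ch at h6
  rwa [abs_of_nonneg (norm_nonneg _)] at h6

end Pool.Agent.H607.Sp
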